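import Mathlib

/-!
# MP_62a15f_an: the form bound can be strictly smaller than the `L¹` limit
-/

set_option autoImplicit false

open MeasureTheory Filter Topology ENNReal
open scoped InnerProductSpace

namespace Pool.Agent.Results.MP_62a15f_an.Dilation

/-! ## The invariant function -/

/-- A measurable function, invariant under `x ↦ 2x`, finite, at least one, and unbounded. -/
noncomputable def aFun (x : ℝ) : ℝ := (1 - Int.fract (Real.logb 2 |x|))⁻¹

lemma aFun_one_le (x : ℝ) : 1 ≤ aFun x := by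
  unfold aFun
  have h1 := Int.fract_nonneg (Real.logb 2 |x|)
  have h2 := Int.fract_lt_one (Real.logb 2 |x|)
  rw [one_le_inv₀ (by linarith)]
  linarith

lemma aFun_meas : Measurable aFun := by
  unfold aFun
  apply Measurable.inv
  apply Measurable.const_sub
  apply measurable_fract.comp
  unfold Real.logb
  exact (Real.measurable_log.comp measurable_norm).div_const _

lemma aFun_two (x : ℝ) : aFun (2 * x) = aFun x := by
  unfold aFun
  rcases eq_or_ne x 0 with h | h
  · simp [h]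
  · have : Real.logb 2 |2 * x| = 1 + Real.logb 2 |x| := by
      rw [abs_mul, Real.logb_mul (by norm_num) (by simpa using h)]
      congr 1
      simp
    rw [this, add_comm, Int.fract_add_one]

lemma aFun_half (x : ℝ) : aFun (2⁻¹ * x) = aFun x := by
  rw [← aFun_two (2⁻¹ * x)]
  congr 1
  ring

lemma aFun_big {e : ℝ} (_he : 0 < e) (he1 : e < 1) {x : ℝ} (hx : x ∈ Set.Ico ((2:ℝ) ^ (1 - e)) 2) :
    e⁻¹ ≤ aFun x := by
  unfold aFun
  have hx0 : 0 < x := lt_of_lt_of_le (Real.rpow_pos_of_pos (by norm_num) _) hx.1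
  have h1 : 1 - e ≤ Real.logb 2 |x| := by
    rw [abs_of_pos hx0, Real.le_logb_iff_rpow_le (by norm_num) hx0]
    exact hx.1
  have h2 : Real.logb 2 |x| < 1 := by
    rw [abs_of_pos hx0, Real.logb_lt_iff_lt_rpow (by norm_num) hx0, Real.rpow_one]
    exact hx.2
  have h3 : Int.fract (Real.logb 2 |x|) = Real.logb 2 |x| := by
    rw [Int.fract_eq_self]
    exact ⟨by linarith, h2⟩
  rw [h3]
  apply inv_anti₀ (by linarith)
  linarith

/-! ## Multipliers -/

variable {p : ℝ≥0∞} [hp : Fact (1 ≤ p)]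

/-- the Lebesgue spaces -/
abbrev LL (p : ℝ≥0∞) : Type := Lp ℂ p (volume : Measure ℝ)

/-- `G` is measurable and bounded by `C` on `[1,∞)`. -/
structure Good (G : ℝ → ℝ) (C : ℝ) : Prop where
  meas : Measurable G
  nn : 0 ≤ C
  bd : ∀ s, 1 ≤ s → |G s| ≤ C

lemma Good.bd' {G : ℝ → ℝ} {C : ℝ} (h : Good G C) (x : ℝ) : |G (aFun x)| ≤ C :=
  h.bd _ (aFun_one_le x)

lemma mul_memLp {G : ℝ → ℝ} {C : ℝ} (h : Good G C) (f : LL p) :
    MemLp (fun x => (G (aFun x) : ℂ) * f x) p volume := by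
  refine MemLp.of_le_mul (c := C) (Lp.memLp f) ?_ ?_
  · exact ((Complex.measurable_ofReal.comp (h.meas.comp aFun_meas)).aestronglyMeasurable).mul
      (Lp.aestronglyMeasurable f)
  · refine Eventually.of_forall fun x => ?_
    rw [norm_mul, Complex.norm_real, Real.norm_eq_abs]
    exact mul_le_mul_of_nonneg_right (h.bd' x) (norm_nonneg _)

/-- multiplication operator, as a linear map with a bound -/
noncomputable def mulOp {G : ℝ → ℝ} {C : ℝ} (h : Good G C) : LL p →L[ℂ] LL p :=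
  LinearMap.mkContinuous
    { toFun := fun f => (mul_memLp h f).toLp _
      map_add' := by
        intro f g
        rw [← MemLp.toLp_add]
        apply Lp.ext
        filter_upwards [(mul_memLp h (f + g)).coeFn_toLp,
          ((mul_memLp h f).add (mul_memLp h g)).coeFn_toLp, Lp.coeFn_add f g] with x h1 h2 h3
        rw [h1, h2, h3]
        simp only [Pi.add_apply]
        ring
      map_smul' := by
        intro c f
        simp only [RingHom.id_apply]
        rw [← MemLp.toLp_const_smul]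
        apply Lp.ext
        filter_upwards [(mul_memLp h (c • f)).coeFn_toLp,
          ((mul_memLp h f).const_smul c).coeFn_toLp, Lp.coeFn_smul c f] with x h1 h2 h3
        rw [h1, h2, h3]
        simp only [Pi.smul_apply, smul_eq_mul]
        ring } C (by
    intro f
    simp only [LinearMap.coe_mk, AddHom.coe_mk]
    apply Lp.norm_le_mul_norm_of_ae_le_mul
    filter_upwards [(mul_memLp h f).coeFn_toLp] with x hx
    rw [hx, norm_mul, Complex.norm_real, Real.norm_eq_abs]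
    exact mul_le_mul_of_nonneg_right (h.bd' x) (norm_nonneg _))

open Classical in
/-- multiplication by `G(a(x))` -/
noncomputable def M (p : ℝ≥0∞) [Fact (1 ≤ p)] (G : ℝ → ℝ) : LL p →L[ℂ] LL p :=
  if h : ∃ C, Good G C then mulOp (Classical.choose_spec h) else 0

lemma M_coe {G : ℝ → ℝ} {C : ℝ} (h : Good G C) (f : LL p) :
    ∀ᵐ x, M p G f x = (G (aFun x) : ℂ) * f x := by
  have hex : ∃ C, Good G C := ⟨C, h⟩
  unfold M
  rw [dif_pos hex]
  exact (mul_memLp (Classical.choose_spec hex) f).coeFn_toLp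

lemma M_norm_apply {G : ℝ → ℝ} {C : ℝ} (h : Good G C) (f : LL p) : ‖M p G f‖ ≤ C * ‖f‖ := by
  apply Lp.norm_le_mul_norm_of_ae_le_mul
  filter_upwards [M_coe h f] with x hx
  rw [hx, norm_mul, Complex.norm_real, Real.norm_eq_abs]
  exact mul_le_mul_of_nonneg_right (h.bd' x) (norm_nonneg _)

lemma M_norm {G : ℝ → ℝ} {C : ℝ} (h : Good G C) : ‖M p G‖ ≤ C :=
  ContinuousLinearMap.opNorm_le_bound _ h.nn (M_norm_apply h)

lemma Good.mul {G H : ℝ → ℝ} {C D : ℝ} (h : Good G C) (h' : Good H D) :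
    Good (fun s => G s * H s) (C * D) :=
  ⟨h.meas.mul h'.meas, mul_nonneg h.nn h'.nn, fun s hs => by
    rw [abs_mul]; exact mul_le_mul (h.bd s hs) (h'.bd s hs) (abs_nonneg _) h.nn⟩

lemma Good.add {G H : ℝ → ℝ} {C D : ℝ} (h : Good G C) (h' : Good H D) :
    Good (fun s => G s + H s) (C + D) :=
  ⟨h.meas.add h'.meas, add_nonneg h.nn h'.nn, fun s hs =>
    (abs_add_le _ _).trans (add_le_add (h.bd s hs) (h'.bd s hs))⟩

lemma M_mul {G H : ℝ → ℝ} {C D : ℝ} (h : Good G C) (h' : Good H D) :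
    M p G * M p H = M p (fun s => G s * H s) := by
  ext1 f
  rw [mul_apply_eq_comp]
  apply Lp.ext
  filter_upwards [M_coe h (M p H f), M_coe h' f, M_coe (h.mul h') f] with x h1 h2 h3
  rw [h1, h2, h3]
  push_cast
  ring

lemma M_add {G H : ℝ → ℝ} {C D : ℝ} (h : Good G C) (h' : Good H D) :
    M p G + M p H = M p (fun s => G s + H s) := by
  ext1 f
  rw [add_apply]
  apply Lp.ext
  filter_upwards [M_coe h f, M_coe h' f, M_coe (h.add h') f, Lp.coeFn_add (M p G f) (M p H f)]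
    with x h1 h2 h3 h4
  rw [h4, Pi.add_apply, h1, h2, h3]
  push_cast
  ring

lemma M_congr {G H : ℝ → ℝ} {C D : ℝ} (h : Good G C) (h' : Good H D)
    (he : ∀ s, 1 ≤ s → G s = H s) : M p G = M p H := by
  ext1 f
  apply Lp.ext
  filter_upwards [M_coe h f, M_coe h' f] with x h1 h2
  rw [h1, h2, he _ (aFun_one_le x)]

lemma M_one : M p (fun _ => 1) = 1 := by
  have h : Good (fun _ => (1:ℝ)) 1 := ⟨measurable_const, zero_le_one, fun s _ => by simp⟩
  ext1 f
  apply Lp.ext
  filter_upwards [M_coe h f] with x h1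
  rw [h1]
  simp

/-! ## Dilations -/

lemma dil_eLpNorm {c : ℝ} (hc : c ≠ 0) {f : ℝ → ℂ} (hf : AEStronglyMeasurable f volume) :
    eLpNorm (fun x => f (c * x)) p volume
      = ENNReal.ofReal |c⁻¹| ^ (1 / p).toReal * eLpNorm f p volume := by
  have h1 := Real.map_volume_mul_left hc
  have hc' : ENNReal.ofReal |c⁻¹| ≠ 0 := by
    simp [hc]
  have hf' : AEStronglyMeasurable f (Measure.map (c * ·) volume) := by
    rw [h1]; exact hf.smul_measure _
  have h2 := eLpNorm_map_measure (p := p) hf' (measurable_const_mul c).aemeasurable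
  rw [h1, eLpNorm_smul_measure_of_ne_zero hc'] at h2
  rw [smul_eq_mul] at h2
  exact h2.symm

lemma dil_ae {c : ℝ} (hc : c ≠ 0) {q : ℝ → Prop} (hq : ∀ᵐ x, q x) : ∀ᵐ x, q (c * x) := by
  have h1 := Real.map_volume_mul_left hc
  have hq' : ∀ᵐ x ∂(Measure.map (c * ·) volume), q x := by
    rw [h1]
    exact Measure.ae_smul_measure hq _
  exact ae_of_ae_map (measurable_const_mul c).aemeasurable hq'

lemma dil_aesm {c : ℝ} (hc : c ≠ 0) {f : ℝ → ℂ} (hf : AEStronglyMeasurable f volume) :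
    AEStronglyMeasurable (fun x => f (c * x)) volume := by
  have h1 := Real.map_volume_mul_left hc
  have hf' : AEStronglyMeasurable f (Measure.map (c * ·) volume) := by
    rw [h1]; exact hf.smul_measure _
  exact hf'.comp_aemeasurable (measurable_const_mul c).aemeasurable

lemma dil_memLp {c : ℝ} (hc : c ≠ 0) (f : LL p) :
    MemLp (fun x => f (c * x)) p volume := by
  refine ⟨dil_aesm hc (Lp.aestronglyMeasurable f), ?_⟩
  rw [dil_eLpNorm hc (Lp.aestronglyMeasurable f)]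
  apply ENNReal.mul_lt_top _ (Lp.eLpNorm_lt_top f)
  exact ENNReal.rpow_lt_top_of_nonneg (by positivity) (by simp)

lemma dil_norm {c : ℝ} (hc : c ≠ 0) (f : LL p) :
    ‖(dil_memLp hc f).toLp _‖ = |c⁻¹| ^ (1 / p).toReal * ‖f‖ := by
  rw [Lp.norm_toLp, dil_eLpNorm hc (Lp.aestronglyMeasurable f), ENNReal.toReal_mul, Lp.norm_def]
  congr 1
  rw [← ENNReal.toReal_rpow, ENNReal.toReal_ofReal (abs_nonneg _)]

/-- the dilation operator `f ↦ f(c x)` -/
noncomputable def dil {c : ℝ} (hc : c ≠ 0) : LL p →L[ℂ] LL p :=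
  LinearMap.mkContinuous
    { toFun := fun f => (dil_memLp hc f).toLp _
      map_add' := by
        intro f g
        rw [← MemLp.toLp_add]
        apply Lp.ext
        filter_upwards [(dil_memLp hc (f + g)).coeFn_toLp,
          ((dil_memLp hc f).add (dil_memLp hc g)).coeFn_toLp,
          dil_ae hc (Lp.coeFn_add f g)] with x h1 h2 h3
        rw [h1, h2, h3]
        rfl
      map_smul' := by
        intro r f
        simp only [RingHom.id_apply]
        rw [← MemLp.toLp_const_smul]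
        apply Lp.ext
        filter_upwards [(dil_memLp hc (r • f)).coeFn_toLp,
          ((dil_memLp hc f).const_smul r).coeFn_toLp,
          dil_ae hc (Lp.coeFn_smul r f)] with x h1 h2 h3
        rw [h1, h2, h3]
        rfl } (|c⁻¹| ^ (1 / p).toReal) (by
    intro f
    simp only [LinearMap.coe_mk, AddHom.coe_mk]
    exact (dil_norm hc f).le)

lemma dil_coe {c : ℝ} (hc : c ≠ 0) (f : LL p) : ∀ᵐ x, dil hc f x = f (c * x) :=
  (dil_memLp hc f).coeFn_toLp

lemma dil_norm' {c : ℝ} (hc : c ≠ 0) (f : LL p) :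
    ‖dil hc f‖ = |c⁻¹| ^ (1 / p).toReal * ‖f‖ := dil_norm hc f

lemma two_ne : (2:ℝ) ≠ 0 := by norm_num
lemma half_ne : (2⁻¹:ℝ) ≠ 0 := by norm_num

/-- `(P f)(x) = (2/3) f(2x) + (1/3) f(x/2)`. -/
noncomputable def P (p : ℝ≥0∞) [Fact (1 ≤ p)] : LL p →L[ℂ] LL p :=
  (2 / 3 : ℂ) • dil two_ne + (1 / 3 : ℂ) • dil half_ne

lemma P_coe (f : LL p) : ∀ᵐ x, P p f x = (2 / 3 : ℂ) * f (2 * x) + (1 / 3 : ℂ) * f (2⁻¹ * x) := by
  have h0 : P p f = (2 / 3 : ℂ) • dil two_ne f + (1 / 3 : ℂ) • dil half_ne f := rfl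
  rw [h0]
  filter_upwards [Lp.coeFn_add ((2 / 3 : ℂ) • dil two_ne f) ((1 / 3 : ℂ) • dil half_ne f),
    Lp.coeFn_smul (2 / 3 : ℂ) (dil two_ne f), Lp.coeFn_smul (1 / 3 : ℂ) (dil half_ne f),
    dil_coe two_ne f, dil_coe half_ne f] with x h1 h2 h3 h4 h5
  rw [h1, Pi.add_apply, h2, h3, Pi.smul_apply, Pi.smul_apply, h4, h5]
  rfl

lemma P_norm_apply (f : LL p) :
    ‖P p f‖ ≤ ((2 / 3) * (2⁻¹ : ℝ) ^ (1 / p).toReal + (1 / 3) * (2 : ℝ) ^ (1 / p).toReal) * ‖f‖ := by
  have h0 : P p f = (2 / 3 : ℂ) • dil two_ne f + (1 / 3 : ℂ) • dil half_ne f := rfl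
  rw [h0]
  refine (norm_add_le _ _).trans ?_
  rw [norm_smul, norm_smul, dil_norm', dil_norm']
  have e1 : ‖(2 / 3 : ℂ)‖ = 2 / 3 := by norm_num
  have e2 : ‖(1 / 3 : ℂ)‖ = 1 / 3 := by norm_num
  have e3 : |(2:ℝ)⁻¹| = 2⁻¹ := abs_of_pos (by norm_num)
  have e4 : |((2:ℝ)⁻¹)⁻¹| = 2 := by rw [inv_inv]; exact abs_of_pos (by norm_num)
  rw [e1, e2, e3, e4]
  apply le_of_eq
  ring

lemma P_norm : ‖P p‖ ≤ 4 / 3 := by
  apply ContinuousLinearMap.opNorm_le_bound _ (by norm_num)
  intro f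
  refine (P_norm_apply f).trans ?_
  apply mul_le_mul_of_nonneg_right _ (norm_nonneg _)
  have hk0 : 0 ≤ (1 / p).toReal := ENNReal.toReal_nonneg
  have hk1 : (1 / p).toReal ≤ 1 := by
    have : 1 / p ≤ 1 := by
      rw [one_div]
      exact ENNReal.inv_le_one.2 hp.out
    calc (1 / p).toReal ≤ (1:ℝ≥0∞).toReal := ENNReal.toReal_mono (by simp) this
      _ = 1 := by simp
  have h1 : (2⁻¹ : ℝ) ^ (1 / p).toReal ≤ 1 := Real.rpow_le_one (by norm_num) (by norm_num) hk0
  have h2 : (2 : ℝ) ^ (1 / p).toReal ≤ 2 := by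
    calc (2 : ℝ) ^ (1 / p).toReal ≤ (2:ℝ) ^ (1:ℝ) :=
          Real.rpow_le_rpow_of_exponent_le (by norm_num) hk1
      _ = 2 := by simp
  nlinarith

lemma P_norm_one (f : LL 1) : ‖P 1 f‖ ≤ ‖f‖ := by
  refine (P_norm_apply f).trans (le_of_eq ?_)
  norm_num

lemma P_norm_top (f : LL ∞) : ‖P ∞ f‖ ≤ ‖f‖ := by
  refine (P_norm_apply f).trans (le_of_eq ?_)
  norm_num

/-- the `L²` norm of `P` -/
noncomputable def rho : ℝ := 2 * √2 / 3

lemma rho_lt : rho < 1 := by
  unfold rho
  have : √2 < 3 / 2 := by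
    rw [Real.sqrt_lt' (by norm_num)]
    norm_num
  linarith

lemma rho_nonneg : 0 ≤ rho := by unfold rho; positivity

lemma P_norm_two (f : LL 2) : ‖P 2 f‖ ≤ rho * ‖f‖ := by
  refine (P_norm_apply f).trans (le_of_eq ?_)
  congr 1
  have e : (1 / (2:ℝ≥0∞)).toReal = 1 / 2 := by simp
  rw [e, ← Real.sqrt_eq_rpow, ← Real.sqrt_eq_rpow, Real.sqrt_inv]
  unfold rho
  have h2 : √2 * √2 = 2 := Real.mul_self_sqrt (by norm_num)
  have h0 : √2 ≠ 0 := by positivity
  field_simp
  nlinarith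

lemma P_M_comm {G : ℝ → ℝ} {C : ℝ} (h : Good G C) : P p * M p G = M p G * P p := by
  ext1 f
  rw [mul_apply_eq_comp, mul_apply_eq_comp]
  apply Lp.ext
  filter_upwards [P_coe (M p G f), P_coe f, M_coe h (P p f), dil_ae two_ne (M_coe h f),
    dil_ae half_ne (M_coe h f)] with x h1 h2 h3 h4 h5
  rw [h1, h4, h5, h3, h2, aFun_two, aFun_half]
  ring

lemma Ppow_M_comm {G : ℝ → ℝ} {C : ℝ} (h : Good G C) (n : ℕ) :
    P p ^ n * M p G = M p G * P p ^ n := by
  have : Commute (P p) (M p G) := P_M_comm h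
  exact (this.pow_left n)


/-! ## Series of multipliers times powers of `P` -/

/-- summable families of multipliers -/
def GoodSeq (G : ℕ → ℝ → ℝ) (C : ℝ) : Prop := ∀ n, Good (G n) (C * (1 / 2) ^ n)

/-- the operator `∑ M(G n) P^n` -/
noncomputable def Phi (p : ℝ≥0∞) [Fact (1 ≤ p)] (G : ℕ → ℝ → ℝ) : LL p →L[ℂ] LL p :=
  ∑' n, M p (G n) * P p ^ n

lemma Ppow_apply_norm {c : ℝ} (hc0 : 0 ≤ c) (hc : ∀ f : LL p, ‖P p f‖ ≤ c * ‖f‖) (n : ℕ)
    (f : LL p) : ‖(P p ^ n) f‖ ≤ c ^ n * ‖f‖ := by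
  induction n with
  | zero => simp
  | succ n ih =>
    rw [pow_succ', mul_apply_eq_comp]
    calc ‖P p ((P p ^ n) f)‖ ≤ c * ‖(P p ^ n) f‖ := hc _
      _ ≤ c * (c ^ n * ‖f‖) := mul_le_mul_of_nonneg_left ih hc0
      _ = c ^ (n + 1) * ‖f‖ := by ring

lemma term_norm {G : ℕ → ℝ → ℝ} {C : ℝ} (h : GoodSeq G C) (n : ℕ) :
    ‖M p (G n) * P p ^ n‖ ≤ C * (2 / 3) ^ n := by
  have h1 : ‖P p ^ n‖ ≤ (4 / 3) ^ n := by
    apply ContinuousLinearMap.opNorm_le_bound _ (by positivity)
    intro f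
    exact Ppow_apply_norm (by norm_num) (fun f => ((P p).le_opNorm f).trans
      (mul_le_mul_of_nonneg_right P_norm (norm_nonneg _))) n f
  calc ‖M p (G n) * P p ^ n‖ ≤ ‖M p (G n)‖ * ‖P p ^ n‖ := norm_mul_le _ _
    _ ≤ (C * (1 / 2) ^ n) * (4 / 3) ^ n :=
        mul_le_mul (M_norm (h n)) h1 (norm_nonneg _) (h n).nn
    _ = C * (2 / 3) ^ n := by
        rw [mul_assoc, ← mul_pow]; norm_num

lemma Phi_summable_norm {G : ℕ → ℝ → ℝ} {C : ℝ} (h : GoodSeq G C) :
    Summable (fun n => ‖M p (G n) * P p ^ n‖) := by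
  refine Summable.of_nonneg_of_le (fun n => norm_nonneg _) (term_norm h) ?_
  exact (summable_geometric_of_lt_one (by norm_num) (by norm_num)).mul_left C

lemma Phi_hasSum {G : ℕ → ℝ → ℝ} {C : ℝ} (h : GoodSeq G C) :
    HasSum (fun n => M p (G n) * P p ^ n) (Phi p G) :=
  (Phi_summable_norm h).of_norm.hasSum

lemma Phi_hasSum_apply {G : ℕ → ℝ → ℝ} {C : ℝ} (h : GoodSeq G C) (f : LL p) :
    HasSum (fun n => M p (G n) ((P p ^ n) f)) (Phi p G f) := by
  have := (ContinuousLinearMap.apply ℂ (LL p) f).hasSum (Phi_hasSum (p := p) h)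
  exact this

lemma Phi_mul {G H : ℕ → ℝ → ℝ} {C D : ℝ} (h : GoodSeq G C) (h' : GoodSeq H D)
    {K : ℕ → ℝ → ℝ} {E : ℝ} (hK : GoodSeq K E)
    (he : ∀ n s, 1 ≤ s → K n s = ∑ kl ∈ Finset.HasAntidiagonal.antidiagonal n, G kl.1 s * H kl.2 s) :
    Phi p G * Phi p H = Phi p K := by
  unfold Phi
  rw [tsum_mul_tsum_eq_tsum_sum_antidiagonal_of_summable_norm (Phi_summable_norm h)
    (Phi_summable_norm h')]
  congr 1
  funext n
  have h1 : ∀ kl ∈ Finset.HasAntidiagonal.antidiagonal n, (M p (G kl.1) * P p ^ kl.1) * (M p (H kl.2) * P p ^ kl.2)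
      = (M p (fun s => G kl.1 s * H kl.2 s)) * P p ^ n := by
    intro kl hkl
    rw [Finset.HasAntidiagonal.mem_antidiagonal] at hkl
    rw [← M_mul (h kl.1) (h' kl.2), ← hkl, pow_add]
    rw [mul_assoc, ← mul_assoc (P p ^ kl.1), Ppow_M_comm (h' kl.2)]
    simp only [mul_assoc]
  rw [Finset.sum_congr rfl h1, ← Finset.sum_mul]
  congr 1
  have h2 : ∀ T : Finset (ℕ × ℕ), ∃ B, Good (fun s => ∑ kl ∈ T, G kl.1 s * H kl.2 s) B ∧
      ∑ kl ∈ T, M p (fun s => G kl.1 s * H kl.2 s)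
        = M p (fun s => ∑ kl ∈ T, G kl.1 s * H kl.2 s) := by
    classical
    intro T
    induction T using Finset.induction_on with
    | empty =>
      have hz : Good (fun _ : ℝ => (0:ℝ)) 0 := ⟨measurable_const, le_rfl, fun s _ => by simp⟩
      refine ⟨0, by simpa using hz, ?_⟩
      simp only [Finset.sum_empty]
      have : M p (fun _ : ℝ => (0:ℝ)) = 0 := by
        apply norm_eq_zero.1
        exact le_antisymm (M_norm hz) (norm_nonneg _)
      exact this.symm
    | insert a T ha ih =>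
      obtain ⟨B, hB, hs⟩ := ih
      have hm := (h a.1).mul (h' a.2)
      refine ⟨_, by simpa [Finset.sum_insert ha] using hm.add hB, ?_⟩
      rw [Finset.sum_insert ha, hs, M_add hm hB]
      simp only [Finset.sum_insert ha]
  obtain ⟨B, hB, hs⟩ := h2 (Finset.HasAntidiagonal.antidiagonal n)
  rw [hs]
  exact M_congr hB (hK n) (fun s hs1 => (he n s hs1).symm)

/-! ## Convergence lemmas -/

lemma exists_subseq {F : ℕ → LL p} {f : LL p} (h : Tendsto F atTop (𝓝 f)) :
    ∃ ns : ℕ → ℕ, StrictMono ns ∧ ∀ᵐ x, Tendsto (fun i => F (ns i) x) atTop (𝓝 (f x)) := by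
  have h1 : TendstoInMeasure volume (fun n => (F n : ℝ → ℂ)) atTop (f : ℝ → ℂ) :=
    tendstoInMeasure_of_tendsto_Lp h
  exact h1.exists_seq_tendsto_ae

lemma M_tendsto_zero (hpt : p ≠ ∞) {G : ℝ → ℝ → ℝ} {C : ℝ} (hG : ∀ t, 0 < t → Good (G t) C)
    (hlim : ∀ s, 1 ≤ s → Tendsto (fun t => G t s) (𝓝[>] 0) (𝓝 0)) (f : LL p) :
    Tendsto (fun t => M p (G t) f) (𝓝[>] 0) (𝓝 0) := by
  have hp0 : p ≠ 0 := fun h => by have := hp.out; rw [h] at this; simp at this
  have hpr : 0 < p.toReal := ENNReal.toReal_pos hp0 hpt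
  have hnn : ∀ t : ℝ, 0 < t → ENNReal.ofReal ‖M p (G t) f‖
      = (∫⁻ x, ‖(G t (aFun x) : ℂ) * f x‖ₑ ^ p.toReal) ^ (1 / p.toReal) := by
    intro t ht
    rw [ofReal_norm, Lp.enorm_def, eLpNorm_congr_ae (M_coe (hG t ht) f),
      eLpNorm_eq_lintegral_rpow_enorm_toReal hp0 hpt]
  have hC : 0 ≤ C := (hG 1 zero_lt_one).nn
  have h1 : Tendsto (fun t : ℝ => ∫⁻ x, ‖(G t (aFun x) : ℂ) * f x‖ₑ ^ p.toReal) (𝓝[>] 0)
      (𝓝 (∫⁻ _x : ℝ, 0)) := by
    apply tendsto_lintegral_filter_of_dominated_convergence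
      (fun x => (ENNReal.ofReal C * ‖f x‖ₑ) ^ p.toReal)
    · filter_upwards [self_mem_nhdsWithin] with t ht
      have hm : Measurable (fun x => (G t (aFun x) : ℂ) * f x) :=
        (Complex.measurable_ofReal.comp ((hG t ht).meas.comp aFun_meas)).mul
          (Lp.stronglyMeasurable f).measurable
      exact hm.enorm.pow_const _
    · filter_upwards [self_mem_nhdsWithin] with t ht
      refine Eventually.of_forall fun x => ?_
      apply ENNReal.rpow_le_rpow _ hpr.le
      rw [enorm_mul]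
      gcongr
      rw [← ofReal_norm, Complex.norm_real, Real.norm_eq_abs]
      exact ENNReal.ofReal_le_ofReal ((hG t ht).bd' x)
    · have : ∀ x : ℝ, (ENNReal.ofReal C * ‖f x‖ₑ) ^ p.toReal
          = ENNReal.ofReal C ^ p.toReal * ‖f x‖ₑ ^ p.toReal := fun x =>
        ENNReal.mul_rpow_of_nonneg _ _ hpr.le
      simp only [this]
      rw [lintegral_const_mul' _ _ (ENNReal.rpow_ne_top_of_nonneg hpr.le (by simp))]
      apply ENNReal.mul_ne_top (ENNReal.rpow_ne_top_of_nonneg hpr.le (by simp))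
      exact (lintegral_rpow_enorm_lt_top_of_eLpNorm_lt_top hp0 hpt (Lp.eLpNorm_lt_top f)).ne
    · refine Eventually.of_forall fun x => ?_
      have h2 : Tendsto (fun t => (G t (aFun x) : ℂ) * f x) (𝓝[>] 0) (𝓝 0) := by
        have h3 := (Complex.continuous_ofReal.tendsto 0).comp (hlim _ (aFun_one_le x))
        have h4 := h3.mul_const (f x)
        simpa using h4
      have h5 := (continuous_enorm.tendsto (0:ℂ)).comp h2
      have h6 := ((ENNReal.continuous_rpow_const (y := p.toReal)).tendsto _).comp h5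
      rw [enorm_zero, ENNReal.zero_rpow_of_pos hpr] at h6
      exact h6
  rw [lintegral_zero] at h1
  have h2 := ((ENNReal.continuous_rpow_const (y := 1 / p.toReal)).tendsto _).comp h1
  rw [ENNReal.zero_rpow_of_pos (by positivity)] at h2
  have h3 : Tendsto (fun t => ENNReal.ofReal ‖M p (G t) f‖) (𝓝[>] 0) (𝓝 0) := by
    refine h2.congr' ?_
    filter_upwards [self_mem_nhdsWithin] with t ht
    rw [hnn t ht]
    rfl
  have h4 := (ENNReal.tendsto_toReal (a := 0) (by simp)).comp h3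
  rw [tendsto_zero_iff_norm_tendsto_zero]
  refine h4.congr fun t => ?_
  simp


lemma Good.sub {G H : ℝ → ℝ} {C D : ℝ} (h : Good G C) (h' : Good H D) :
    Good (fun s => G s - H s) (C + D) :=
  ⟨h.meas.sub h'.meas, add_nonneg h.nn h'.nn, fun s hs =>
    (abs_sub _ _).trans (add_le_add (h.bd s hs) (h'.bd s hs))⟩

lemma M_sub {G H : ℝ → ℝ} {C D : ℝ} (h : Good G C) (h' : Good H D) (f : LL p) :
    M p G f - M p H f = M p (fun s => G s - H s) f := by
  apply Lp.ext
  filter_upwards [M_coe h f, M_coe h' f, M_coe (h.sub h') f, Lp.coeFn_sub (M p G f) (M p H f)]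
    with x h1 h2 h3 h4
  rw [h4, Pi.sub_apply, h1, h2, h3]
  push_cast
  ring

lemma M_tendsto (hpt : p ≠ ∞) {G : ℝ → ℝ → ℝ} {C D : ℝ} (hG : ∀ t, 0 < t → Good (G t) C)
    {H : ℝ → ℝ} (hH : Good H D)
    (hlim : ∀ s, 1 ≤ s → Tendsto (fun t => G t s) (𝓝[>] 0) (𝓝 (H s))) (f : LL p) :
    Tendsto (fun t => M p (G t) f) (𝓝[>] 0) (𝓝 (M p H f)) := by
  rw [← tendsto_sub_nhds_zero_iff]
  have h1 := M_tendsto_zero hpt (fun t ht => (hG t ht).sub hH)
    (fun s hs => by simpa using (hlim s hs).sub_const (H s)) f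
  refine h1.congr' ?_
  filter_upwards [self_mem_nhdsWithin] with t ht
  rw [M_sub (hG t ht) hH]

/-- Tannery's theorem for `Phi`. -/
lemma Phi_tendsto (hpt : p ≠ ∞) {G : ℝ → ℕ → ℝ → ℝ} {C D : ℝ}
    (hG : ∀ t, 0 < t → GoodSeq (G t) C) {H : ℕ → ℝ → ℝ} (hH : GoodSeq H D)
    (hlim : ∀ n s, 1 ≤ s → Tendsto (fun t => G t n s) (𝓝[>] 0) (𝓝 (H n s))) (f : LL p) :
    Tendsto (fun t => Phi p (G t) f) (𝓝[>] 0) (𝓝 (Phi p H f)) := by
  have h1 : Tendsto (fun t => ∑' n, M p (G t n) ((P p ^ n) f)) (𝓝[>] 0)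
      (𝓝 (∑' n, M p (H n) ((P p ^ n) f))) := by
    apply tendsto_tsum_of_dominated_convergence (bound := fun n => C * (2 / 3) ^ n * ‖f‖)
    · exact ((summable_geometric_of_lt_one (by norm_num) (by norm_num)).mul_left C).mul_right _
    · intro n
      exact M_tendsto hpt (fun t ht => hG t ht n) (hH n) (hlim n) _
    · filter_upwards [self_mem_nhdsWithin] with t ht n
      have := (M p (G t n) * P p ^ n).le_opNorm f
      rw [mul_apply_eq_comp] at this
      exact this.trans (mul_le_mul_of_nonneg_right (term_norm (hG t ht) n) (norm_nonneg _))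
  rw [(Phi_hasSum_apply hH f).tsum_eq] at h1
  refine h1.congr' ?_
  filter_upwards [self_mem_nhdsWithin] with t ht
  exact (Phi_hasSum_apply (hG t ht) f).tsum_eq

/-- partial sums converge -/
lemma Phi_partial {G : ℕ → ℝ → ℝ} {C : ℝ} (h : GoodSeq G C) (f : LL p) :
    Tendsto (fun N => ∑ n ∈ Finset.range N, M p (G n) ((P p ^ n) f)) atTop (𝓝 (Phi p G f)) :=
  (Phi_hasSum_apply h f).tendsto_sum_nat

/-- pointwise partial sums, independent of `p` -/
noncomputable def opP (f : ℝ → ℂ) : ℝ → ℂ := fun x => (2 / 3 : ℂ) * f (2 * x) + (1 / 3 : ℂ) * f (2⁻¹ * x)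

lemma opP_congr {f g : ℝ → ℂ} (h : ∀ᵐ x, f x = g x) : ∀ᵐ x, opP f x = opP g x := by
  filter_upwards [dil_ae two_ne h, dil_ae half_ne h] with x h1 h2
  unfold opP
  rw [h1, h2]

lemma Ppow_coe (n : ℕ) (f : LL p) : ∀ᵐ x, (P p ^ n) f x = (opP^[n] f) x := by
  induction n with
  | zero => exact Eventually.of_forall fun x => rfl
  | succ n ih =>
    rw [pow_succ', Function.iterate_succ']
    filter_upwards [P_coe ((P p ^ n) f), opP_congr ih] with x h1 h2
    rw [mul_apply_eq_comp, h1, Function.comp_apply, ← h2]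
    rfl

lemma opPn_congr {f g : ℝ → ℂ} (h : ∀ᵐ x, f x = g x) (n : ℕ) :
    ∀ᵐ x, (opP^[n] f) x = (opP^[n] g) x := by
  induction n with
  | zero => exact h
  | succ n ih =>
    rw [Function.iterate_succ', ]
    exact opP_congr ih

lemma sum_coe {G : ℕ → ℝ → ℝ} {C : ℝ} (h : GoodSeq G C) (f : LL p) (N : ℕ) :
    ∀ᵐ x, (∑ n ∈ Finset.range N, M p (G n) ((P p ^ n) f) : LL p) x
      = ∑ n ∈ Finset.range N, (G n (aFun x) : ℂ) * (opP^[n] f) x := by
  induction N with
  | zero =>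
    simp only [Finset.range_zero, Finset.sum_empty]
    exact Lp.coeFn_zero _ _ _
  | succ N ih =>
    rw [Finset.sum_range_succ]
    filter_upwards [ih, Lp.coeFn_add (∑ n ∈ Finset.range N, M p (G n) ((P p ^ n) f))
      (M p (G N) ((P p ^ N) f)), M_coe (h N) ((P p ^ N) f), Ppow_coe N f] with x h1 h2 h3 h4
    rw [h2, Pi.add_apply, h1, h3, h4, Finset.sum_range_succ]

lemma all_sum_coe {G : ℕ → ℝ → ℝ} {C : ℝ} (h : GoodSeq G C) (f : LL p) :
    ∀ᵐ x, ∀ N, (∑ n ∈ Finset.range N, M p (G n) ((P p ^ n) f) : LL p) x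
      = ∑ n ∈ Finset.range N, (G n (aFun x) : ℂ) * (opP^[n] f) x :=
  ae_all_iff.2 (sum_coe h f)

lemma Phi_compat {q : ℝ≥0∞} [Fact (1 ≤ q)] {G : ℕ → ℝ → ℝ} {C : ℝ} (h : GoodSeq G C) (f : LL p)
    (g : LL q) (hfg : ∀ᵐ x, f x = g x) : ∀ᵐ x, Phi p G f x = Phi q G g x := by
  obtain ⟨ns, hns, h1⟩ := exists_subseq (Phi_partial h f)
  obtain ⟨ms, hms, h2⟩ := exists_subseq ((Phi_partial h g).comp hns.tendsto_atTop)
  filter_upwards [h1, h2, all_sum_coe h f, all_sum_coe h g,
    ae_all_iff.2 (fun n => opPn_congr hfg n)] with x e1 e2 e3 e4 e5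
  have e6 := e1.comp hms.tendsto_atTop
  refine tendsto_nhds_unique e6 ?_
  refine e2.congr fun i => ?_
  simp only [Function.comp_apply]
  rw [e3, e4]
  exact Finset.sum_congr rfl fun n _ => by rw [e5 n]

/-- nonnegative values -/
def NN (z : ℂ) : Prop := 0 ≤ z.re ∧ z.im = 0

lemma opP_nn {f : ℝ → ℂ} (h : ∀ᵐ x, NN (f x)) : ∀ᵐ x, NN (opP f x) := by
  filter_upwards [dil_ae two_ne h, dil_ae half_ne h] with x h1 h2
  unfold opP NN at *
  constructor
  · simp only [Complex.add_re, Complex.mul_re]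
    norm_num
    linarith [h1.1, h2.1]
  · simp only [Complex.add_im, Complex.mul_im, h1.2, h2.2]
    norm_num

lemma opPn_nn {f : ℝ → ℂ} (h : ∀ᵐ x, NN (f x)) (n : ℕ) : ∀ᵐ x, NN ((opP^[n] f) x) := by
  induction n with
  | zero => exact h
  | succ n ih =>
    rw [Function.iterate_succ']
    exact opP_nn ih

lemma nn_closed : IsClosed {z : ℂ | NN z} := by
  unfold NN
  exact (isClosed_le continuous_const Complex.continuous_re).inter
    (isClosed_eq Complex.continuous_im continuous_const)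

lemma nn_sum {ι : Type} (T : Finset ι) (F : ι → ℂ) (h : ∀ i ∈ T, NN (F i)) : NN (∑ i ∈ T, F i) := by
  unfold NN at *
  rw [Complex.re_sum, Complex.im_sum]
  exact ⟨Finset.sum_nonneg fun i hi => (h i hi).1, Finset.sum_eq_zero fun i hi => (h i hi).2⟩

lemma Phi_pos {G : ℕ → ℝ → ℝ} {C : ℝ} (h : GoodSeq G C) (hG : ∀ n s, 1 ≤ s → 0 ≤ G n s)
    (f : LL p) (hf : ∀ᵐ x, NN (f x)) : ∀ᵐ x, NN (Phi p G f x) := by
  obtain ⟨ns, hns, h1⟩ := exists_subseq (Phi_partial h f)
  filter_upwards [h1, all_sum_coe h f, ae_all_iff.2 (fun n => opPn_nn hf n)] with x e1 e3 e5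
  refine nn_closed.mem_of_tendsto e1 (Eventually.of_forall fun i => ?_)
  simp only [Set.mem_ofPred_eq]
  rw [e3]
  apply nn_sum
  intro n _
  have h6 := e5 n
  have h7 := hG n _ (aFun_one_le x)
  unfold NN at *
  constructor
  · rw [Complex.re_ofReal_mul]
    exact mul_nonneg h7 h6.1
  · rw [Complex.im_ofReal_mul, h6.2, mul_zero]


/-! ## The semigroup -/

/-- multipliers of the semigroup -/
noncomputable def heat (t : ℝ) (n : ℕ) (s : ℝ) : ℝ :=
  Real.exp (-(2 * (t * s))) * ((t * s) ^ n / n.factorial)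

lemma heat_nonneg {t : ℝ} (ht : 0 ≤ t) (n : ℕ) (s : ℝ) (hs : 1 ≤ s) : 0 ≤ heat t n s := by
  unfold heat
  have : 0 ≤ t * s := mul_nonneg ht (by linarith)
  positivity

lemma exp_bound {y : ℝ} (hy : 0 ≤ y) (n : ℕ) :
    Real.exp (-(2 * y)) * (y ^ n / n.factorial) ≤ (1 / 2) ^ n := by
  have h1 := Real.pow_div_factorial_le_exp (2 * y) (by linarith) n
  have h2 : (2 * y) ^ n / n.factorial = 2 ^ n * (y ^ n / n.factorial) := by
    rw [mul_pow]; ring
  rw [h2] at h1
  have h3 : Real.exp (-(2 * y)) * Real.exp (2 * y) = 1 := by rw [← Real.exp_add]; simp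
  have h4 : Real.exp (-(2 * y)) * (2 ^ n * (y ^ n / n.factorial)) ≤ 1 := by
    rw [← h3]
    exact mul_le_mul_of_nonneg_left h1 (Real.exp_pos _).le
  have h5 : (0:ℝ) < 2 ^ n := by positivity
  rw [one_div, inv_pow, ← one_div, le_div_iff₀ h5]
  linarith

lemma heat_good {t : ℝ} (ht : 0 ≤ t) : GoodSeq (heat t) 1 := by
  intro n
  refine ⟨?_, by positivity, ?_⟩
  · unfold heat
    fun_prop
  · intro s hs
    rw [abs_of_nonneg (heat_nonneg ht n s hs), one_mul]
    exact exp_bound (mul_nonneg ht (by linarith)) n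

/-- the semigroup on `L^p` -/
noncomputable def S (p : ℝ≥0∞) [Fact (1 ≤ p)] (t : ℝ) : LL p →L[ℂ] LL p := Phi p (heat t)

lemma good_zero : Good (fun _ : ℝ => (0:ℝ)) 0 := ⟨measurable_const, le_rfl, fun s _ => by simp⟩

lemma M_zero : M p (fun _ : ℝ => (0:ℝ)) = 0 :=
  norm_eq_zero.1 (le_antisymm (M_norm good_zero) (norm_nonneg _))

lemma good_one : Good (fun _ : ℝ => (1:ℝ)) 1 := ⟨measurable_const, zero_le_one, fun s _ => by simp⟩

lemma S_zero : S p 0 = 1 := by
  unfold S Phi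
  rw [tsum_eq_single 0]
  · have : heat 0 0 = fun _ => 1 := by
      funext s; simp [heat]
    rw [this, M_one]
    simp
  · intro n hn
    have : heat 0 n = fun _ => 0 := by
      funext s; simp [heat, hn]
    rw [this, M_zero, zero_mul]

lemma S_add {t s : ℝ} (ht : 0 ≤ t) (hs : 0 ≤ s) : S p (t + s) = S p t * S p s := by
  unfold S
  rw [Phi_mul (heat_good ht) (heat_good hs) (heat_good (add_nonneg ht hs))]
  intro n r hr
  unfold heat
  have h1 : ((t + s) * r) ^ n = (t * r + s * r) ^ n := by ring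
  rw [h1, (Commute.all (t * r) (s * r)).add_pow' n, Finset.sum_div, Finset.mul_sum]
  apply Finset.sum_congr rfl
  intro kl hkl
  rw [Finset.HasAntidiagonal.mem_antidiagonal] at hkl
  have h2 : Real.exp (-(2 * ((t + s) * r)))
      = Real.exp (-(2 * (t * r))) * Real.exp (-(2 * (s * r))) := by
    rw [← Real.exp_add]; ring_nf
  rw [h2]
  have h3 := Nat.add_choose_mul_factorial_mul_factorial kl.1 kl.2
  rw [hkl] at h3
  have h4 : (n.factorial : ℝ) = (n.choose kl.1 : ℝ) * kl.1.factorial * kl.2.factorial := by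
    rw [Nat.choose_symm_of_eq_add hkl.symm]
    exact_mod_cast h3.symm
  have h5 : (kl.1.factorial : ℝ) ≠ 0 := by positivity
  have h6 : (kl.2.factorial : ℝ) ≠ 0 := by positivity
  have h7 : (n.choose kl.1 : ℝ) ≠ 0 := by
    have : 0 < n.choose kl.1 := Nat.choose_pos (by omega)
    positivity
  rw [h4, nsmul_eq_mul]
  field_simp

lemma S_cont (hpt : p ≠ ∞) (f : LL p) : Tendsto (fun t => S p t f) (𝓝[>] 0) (𝓝 f) := by
  have h := Phi_tendsto (p := p) hpt (G := heat) (C := 1) (fun t ht => heat_good ht.le)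
    (H := heat 0) (heat_good le_rfl) (by
      intro n s hs
      have : Continuous (fun t => heat t n s) := by unfold heat; fun_prop
      exact (this.tendsto 0).mono_left nhdsWithin_le_nhds) f
  have e : Phi p (heat 0) f = f := by
    have := S_zero (p := p)
    unfold S at this
    rw [this]; rfl
  rw [e] at h
  exact h

lemma S_pos {t : ℝ} (ht : 0 ≤ t) (f : LL p) (hf : ∀ᵐ x, NN (f x)) : ∀ᵐ x, NN (S p t f x) :=
  Phi_pos (heat_good ht) (heat_nonneg ht) f hf

lemma Ppow_norm_one (n : ℕ) (f : LL 1) : ‖(P 1 ^ n) f‖ ≤ ‖f‖ := by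
  have := Ppow_apply_norm (p := 1) zero_le_one (fun f => by simpa using P_norm_one f) n f
  simpa using this

lemma Ppow_norm_top (n : ℕ) (f : LL ∞) : ‖(P ∞ ^ n) f‖ ≤ ‖f‖ := by
  have := Ppow_apply_norm (p := ∞) zero_le_one (fun f => by simpa using P_norm_top f) n f
  simpa using this

lemma M_norm_eq_one {G : ℝ → ℝ} {C : ℝ} (h : Good G C) (f : LL 1) :
    ‖M 1 G f‖ = ∫ x, |G (aFun x)| * ‖f x‖ := by
  rw [L1.norm_eq_integral_norm]
  apply integral_congr_ae
  filter_upwards [M_coe h f] with x hx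
  rw [hx, norm_mul, Complex.norm_real, Real.norm_eq_abs]

lemma Phi_norm_one {G : ℕ → ℝ → ℝ} {C B : ℝ} (h : GoodSeq G C)
    (hB : ∀ N s, 1 ≤ s → ∑ n ∈ Finset.range N, |G n s| ≤ B) (f : LL 1) :
    ‖Phi 1 G f‖ ≤ B * ‖f‖ := by
  refine le_of_tendsto (Phi_partial h f).norm (Eventually.of_forall fun N => ?_)
  calc ‖∑ n ∈ Finset.range N, M 1 (G n) ((P 1 ^ n) f)‖
      ≤ ∑ n ∈ Finset.range N, ‖M 1 (G n) ((P 1 ^ n) f)‖ := norm_sum_le _ _
    _ ≤ ∑ n ∈ Finset.range N, ‖M 1 (G n) f‖ := by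
        apply Finset.sum_le_sum
        intro n _
        have e : M 1 (G n) ((P 1 ^ n) f) = (P 1 ^ n) (M 1 (G n) f) := by
          rw [← mul_apply_eq_comp, ← mul_apply_eq_comp, Ppow_M_comm (h n)]
        rw [e]
        exact Ppow_norm_one n _
    _ = ∑ n ∈ Finset.range N, ∫ x, |G n (aFun x)| * ‖f x‖ :=
        Finset.sum_congr rfl fun n _ => M_norm_eq_one (h n) f
    _ = ∫ x, ∑ n ∈ Finset.range N, |G n (aFun x)| * ‖f x‖ := by
        rw [integral_finsetSum]
        intro n _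
        have h1 : Integrable (M 1 (G n) f) := L1.integrable_coeFn _
        refine h1.norm.congr ?_
        filter_upwards [M_coe (h n) f] with x hx
        rw [hx, norm_mul, Complex.norm_real, Real.norm_eq_abs]
    _ ≤ ∫ x, B * ‖f x‖ := by
        apply integral_mono_of_nonneg
        · exact Eventually.of_forall fun x => Finset.sum_nonneg fun n _ => by positivity
        · exact (L1.integrable_coeFn f).norm.const_mul B
        · refine Eventually.of_forall fun x => ?_
          simp only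
          rw [← Finset.sum_mul]
          exact mul_le_mul_of_nonneg_right (hB N _ (aFun_one_le x)) (norm_nonneg _)
    _ = B * ‖f‖ := by rw [integral_const_mul, L1.norm_eq_integral_norm]

lemma heat_sum {t : ℝ} (ht : 0 ≤ t) (N : ℕ) (s : ℝ) (hs : 1 ≤ s) :
    ∑ n ∈ Finset.range N, |heat t n s| ≤ 1 := by
  have h0 : 0 ≤ t * s := mul_nonneg ht (by linarith)
  have h1 : ∑ n ∈ Finset.range N, |heat t n s|
      = Real.exp (-(2 * (t * s))) * ∑ n ∈ Finset.range N, (t * s) ^ n / n.factorial := by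
    rw [Finset.mul_sum]
    exact Finset.sum_congr rfl fun n _ => abs_of_nonneg (heat_nonneg ht n s hs)
  rw [h1]
  have h2 := Real.sum_le_exp_of_nonneg h0 N
  calc Real.exp (-(2 * (t * s))) * ∑ n ∈ Finset.range N, (t * s) ^ n / n.factorial
      ≤ Real.exp (-(2 * (t * s))) * Real.exp (t * s) :=
        mul_le_mul_of_nonneg_left h2 (Real.exp_pos _).le
    _ = Real.exp (-(t * s)) := by rw [← Real.exp_add]; ring_nf
    _ ≤ 1 := by rw [Real.exp_le_one_iff]; linarith

lemma S_contr_one {t : ℝ} (ht : 0 ≤ t) (f : LL 1) : ‖S 1 t f‖ ≤ ‖f‖ := by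
  have := Phi_norm_one (heat_good ht) (heat_sum ht) f
  simpa [S] using this

lemma top_bound (f : LL ∞) : ∀ᵐ x, ‖f x‖ ≤ ‖f‖ := by
  have h1 : ∀ᵐ x, ‖f x‖ₑ ≤ eLpNormEssSup f volume := ae_le_eLpNormEssSup
  filter_upwards [h1] with x hx
  have h2 : ‖f x‖ₑ ≤ ‖f‖ₑ := by
    rw [Lp.enorm_def, eLpNorm_exponent_top]; exact hx
  rw [← ofReal_norm, ← ofReal_norm] at h2
  exact (ENNReal.ofReal_le_ofReal_iff (norm_nonneg _)).1 h2

lemma top_norm_le {f : LL ∞} {C : ℝ} (hC : 0 ≤ C) (h : ∀ᵐ x, ‖f x‖ ≤ C) : ‖f‖ ≤ C := by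
  have h1 : eLpNormEssSup f volume ≤ ENNReal.ofReal C := eLpNormEssSup_le_of_ae_bound h
  have h2 : ‖f‖ₑ ≤ ENNReal.ofReal C := by
    rw [Lp.enorm_def, eLpNorm_exponent_top]; exact h1
  rw [← ofReal_norm] at h2
  exact (ENNReal.ofReal_le_ofReal_iff hC).1 h2

lemma S_contr_top {t : ℝ} (ht : 0 ≤ t) (f : LL ∞) : ‖S ∞ t f‖ ≤ ‖f‖ := by
  refine le_of_tendsto (Phi_partial (heat_good ht) f).norm (Eventually.of_forall fun N => ?_)
  apply top_norm_le (norm_nonneg _)
  have h1 : ∀ᵐ x, ∀ n, ‖(opP^[n] f) x‖ ≤ ‖f‖ := by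
    rw [ae_all_iff]
    intro n
    filter_upwards [Ppow_coe n f, top_bound ((P ∞ ^ n) f)] with x e1 e2
    rw [← e1]
    exact e2.trans (Ppow_norm_top n f)
  filter_upwards [sum_coe (heat_good ht) f N, h1] with x e1 e2
  rw [e1]
  calc ‖∑ n ∈ Finset.range N, (heat t n (aFun x) : ℂ) * (opP^[n] f) x‖
      ≤ ∑ n ∈ Finset.range N, ‖(heat t n (aFun x) : ℂ) * (opP^[n] f) x‖ := norm_sum_le _ _
    _ ≤ ∑ n ∈ Finset.range N, |heat t n (aFun x)| * ‖f‖ := by
        apply Finset.sum_le_sum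
        intro n _
        rw [norm_mul, Complex.norm_real, Real.norm_eq_abs]
        exact mul_le_mul_of_nonneg_left (e2 n) (abs_nonneg _)
    _ = (∑ n ∈ Finset.range N, |heat t n (aFun x)|) * ‖f‖ := by rw [Finset.sum_mul]
    _ ≤ 1 * ‖f‖ := mul_le_mul_of_nonneg_right (heat_sum ht N _ (aFun_one_le x)) (norm_nonneg _)
    _ = ‖f‖ := one_mul _

lemma M_symm {G : ℝ → ℝ} {C : ℝ} (h : Good G C) (f g : LL 2) :
    ⟪M 2 G f, g⟫_ℂ = ⟪f, M 2 G g⟫_ℂ := by
  rw [L2.inner_def, L2.inner_def]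
  apply integral_congr_ae
  filter_upwards [M_coe h f, M_coe h g] with x h1 h2
  rw [h1, h2]
  simp only [RCLike.inner_apply, map_mul, Complex.conj_ofReal]
  ring

lemma dil_inner {c d : ℝ} (hc : c ≠ 0) (hd : d ≠ 0) (hcd : c * d = 1) (f g : LL 2) :
    ⟪dil hc f, g⟫_ℂ = (|d| : ℝ) * ⟪f, dil hd g⟫_ℂ := by
  rw [L2.inner_def, L2.inner_def]
  have h1 : ∫ x, ⟪f x, dil hd g x⟫_ℂ = ∫ x, ⟪f x, g (d * x)⟫_ℂ := by
    apply integral_congr_ae
    filter_upwards [dil_coe hd g] with x hx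
    rw [hx]
  have hdc : c⁻¹ = d := inv_eq_of_mul_eq_one_right hcd
  have h2 : ∫ x, ⟪dil hc f x, g x⟫_ℂ = ∫ x, (fun y => ⟪f y, g (d * y)⟫_ℂ) (c * x) := by
    apply integral_congr_ae
    filter_upwards [dil_coe hc f] with x hx
    rw [hx]
    have : d * (c * x) = x := by rw [← mul_assoc, mul_comm d c, hcd, one_mul]
    show ⟪f (c * x), g x⟫_ℂ = ⟪f (c * x), g (d * (c * x))⟫_ℂ
    rw [this]
  rw [h1, h2, Measure.integral_comp_mul_left (fun y => ⟪f y, g (d * y)⟫_ℂ) c, hdc]
  simp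

lemma P_symm (f g : LL 2) : ⟪P 2 f, g⟫_ℂ = ⟪f, P 2 g⟫_ℂ := by
  have h0 : ∀ f : LL 2, P 2 f = (2 / 3 : ℂ) • dil two_ne f + (1 / 3 : ℂ) • dil half_ne f :=
    fun f => rfl
  rw [h0, h0, inner_add_left, inner_add_right, inner_smul_left, inner_smul_left,
    inner_smul_right, inner_smul_right]
  rw [dil_inner two_ne half_ne (by norm_num) f g, dil_inner half_ne two_ne (by norm_num) f g]
  have e1 : (starRingEnd ℂ) (2 / 3 : ℂ) = 2 / 3 := by
    have : (2 / 3 : ℂ) = ((2 / 3 : ℝ) : ℂ) := by push_cast; rfl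
    rw [this, Complex.conj_ofReal]
  have e2 : (starRingEnd ℂ) (1 / 3 : ℂ) = 1 / 3 := by
    have : (1 / 3 : ℂ) = ((1 / 3 : ℝ) : ℂ) := by push_cast; rfl
    rw [this, Complex.conj_ofReal]
  rw [e1, e2]
  have e3 : |(2:ℝ)⁻¹| = 2⁻¹ := abs_of_pos (by norm_num)
  have e4 : |(2:ℝ)| = 2 := abs_of_pos (by norm_num)
  rw [e3, e4]
  push_cast
  ring

lemma Ppow_symm (n : ℕ) (f g : LL 2) : ⟪(P 2 ^ n) f, g⟫_ℂ = ⟪f, (P 2 ^ n) g⟫_ℂ := by
  induction n generalizing f g with
  | zero => simp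
  | succ n ih =>
    rw [pow_succ, mul_apply_eq_comp, ih, P_symm, ← mul_apply_eq_comp, ← pow_succ', ← pow_succ]

lemma S_symm {t : ℝ} (ht : 0 ≤ t) (f g : LL 2) : ⟪S 2 t f, g⟫_ℂ = ⟪f, S 2 t g⟫_ℂ := by
  have h1 : HasSum (fun n => ⟪M 2 (heat t n) ((P 2 ^ n) f), g⟫_ℂ) ⟪S 2 t f, g⟫_ℂ := by
    have := (innerSL ℂ g).hasSum (Phi_hasSum_apply (heat_good ht) f)
    have h2 := (Complex.conjCLE.toContinuousLinearMap).hasSum this
    convert h2 using 1
    · funext n
      simp [Function.comp]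
    · simp [S]
  have h2 : HasSum (fun n => ⟪f, M 2 (heat t n) ((P 2 ^ n) g)⟫_ℂ) ⟪f, S 2 t g⟫_ℂ :=
    (innerSL ℂ f).hasSum (Phi_hasSum_apply (heat_good ht) g)
  have e : (fun n => ⟪M 2 (heat t n) ((P 2 ^ n) f), g⟫_ℂ)
      = fun n => ⟪f, M 2 (heat t n) ((P 2 ^ n) g)⟫_ℂ := by
    funext n
    rw [M_symm (heat_good ht n), Ppow_symm, ← mul_apply_eq_comp, ← mul_apply_eq_comp,
      Ppow_M_comm (heat_good ht n)]
  rw [e] at h1
  exact h1.unique h2

/-! ## The generator on `L¹` -/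

/-- `f` lies in the domain of the generator of `T` and `T f = k`. -/
def InGen {E : Type} [NormedAddCommGroup E] [NormedSpace ℂ E] (T : ℝ → E →L[ℂ] E) (f k : E) :
    Prop :=
  Tendsto (fun t : ℝ => ((t⁻¹ : ℝ) : ℂ) • (T t f - f)) (𝓝[>] 0) (𝓝 k)

/-- multipliers of the difference quotients -/
noncomputable def quo (t : ℝ) (n : ℕ) (s : ℝ) : ℝ :=
  if n = 0 then (Real.exp (-(2 * (t * s))) - 1) / (t * s)
  else Real.exp (-(2 * (t * s))) * ((t * s) ^ (n - 1) / n.factorial)

/-- limits of the multipliers -/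
noncomputable def quo0 (n : ℕ) (_s : ℝ) : ℝ :=
  if n = 0 then -2 else if n = 1 then 1 else 0

lemma quo_good {t : ℝ} (ht : 0 < t) : GoodSeq (quo t) 2 := by
  intro n
  refine ⟨?_, by positivity, ?_⟩
  · unfold quo
    split_ifs
    · fun_prop
    · fun_prop
  · intro s hs
    have hts : 0 < t * s := mul_pos ht (by linarith)
    unfold quo
    split_ifs with h
    · subst h
      rw [pow_zero, mul_one, abs_div, abs_of_pos hts, div_le_iff₀ hts]
      have h1 := Real.add_one_le_exp (-(2 * (t * s)))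
      have h2 : Real.exp (-(2 * (t * s))) ≤ 1 := by
        rw [Real.exp_le_one_iff]; linarith
      rw [abs_le]
      constructor <;> linarith
    · obtain ⟨m, rfl⟩ := Nat.exists_eq_succ_of_ne_zero h
      have h1 := exp_bound hts.le m
      rw [abs_of_nonneg (by positivity)]
      simp only [Nat.succ_eq_add_one, Nat.add_sub_cancel]
      calc Real.exp (-(2 * (t * s))) * ((t * s) ^ m / (m + 1).factorial)
          ≤ Real.exp (-(2 * (t * s))) * ((t * s) ^ m / m.factorial) := by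
            apply mul_le_mul_of_nonneg_left _ (Real.exp_pos _).le
            apply div_le_div_of_nonneg_left (by positivity) (by positivity)
            exact_mod_cast Nat.factorial_le (by omega)
        _ ≤ (1 / 2) ^ m := h1
        _ = 2 * (1 / 2) ^ (m + 1) := by rw [pow_succ]; ring

lemma quo0_good : GoodSeq quo0 2 := by
  intro n
  refine ⟨?_, by positivity, ?_⟩
  · unfold quo0
    exact measurable_const
  · intro s hs
    unfold quo0
    split_ifs with h1 h2
    · subst h1; norm_num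
    · subst h2; norm_num
    · simp

lemma quo_tendsto (n : ℕ) (s : ℝ) (hs : 1 ≤ s) :
    Tendsto (fun t => quo t n s) (𝓝[>] 0) (𝓝 (quo0 n s)) := by
  have hs0 : 0 < s := by linarith
  unfold quo quo0
  split_ifs with h1 h2
  · -- derivative of the exponential
    have hd : HasDerivAt (fun y : ℝ => Real.exp (-(2 * y))) (-2) 0 := by
      have h3 : HasDerivAt (fun y : ℝ => -(2 * y)) (-2) 0 := by
        simpa using ((hasDerivAt_id' (0:ℝ)).const_mul 2).fun_neg
      simpa using h3.exp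
    have hs1 := hd.tendsto_slope_zero_right
    have h4 : Tendsto (fun t : ℝ => t * s) (𝓝[>] 0) (𝓝[>] 0) := by
      apply tendsto_nhdsWithin_of_tendsto_nhds_of_eventually_within
      · have : Continuous (fun t : ℝ => t * s) := by fun_prop
        have h5 := this.tendsto 0
        rw [zero_mul] at h5
        exact h5.mono_left nhdsWithin_le_nhds
      · filter_upwards [self_mem_nhdsWithin] with t ht
        exact mul_pos ht hs0
    have h5 := hs1.comp h4
    refine h5.congr fun t => ?_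
    simp only [Function.comp, zero_add, mul_zero, neg_zero, Real.exp_zero, smul_eq_mul]
    ring
  · subst h2
    have : Continuous (fun t : ℝ => Real.exp (-(2 * (t * s))) * ((t * s) ^ (1 - 1) / (Nat.factorial 1 : ℕ))) := by
      fun_prop
    have h5 := (this.tendsto 0).mono_left (nhdsWithin_le_nhds (s := Set.Ioi 0))
    simpa using h5
  · have : Continuous (fun t : ℝ => Real.exp (-(2 * (t * s))) * ((t * s) ^ (n - 1) / (Nat.factorial n : ℕ))) := by
      fun_prop
    have h5 := (this.tendsto 0).mono_left (nhdsWithin_le_nhds (s := Set.Ioi 0))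
    have h6 : n - 1 ≠ 0 := by omega
    simpa [h6] using h5

lemma Phi_M {G : ℕ → ℝ → ℝ} {C : ℝ} (h : GoodSeq G C) {U : ℝ → ℝ} {D : ℝ} (hU : Good U D)
    (f : LL p) : HasSum (fun n => M p (fun s => G n s * U s) ((P p ^ n) f)) (Phi p G (M p U f)) := by
  have h1 := Phi_hasSum_apply h (M p U f)
  convert h1 using 1
  funext n
  rw [← M_mul (h n) hU]
  have : (P p ^ n) (M p U f) = M p U ((P p ^ n) f) := by
    rw [← mul_apply_eq_comp, ← mul_apply_eq_comp, Ppow_M_comm hU]
  rw [this]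
  rfl

lemma good_inv : Good (fun s : ℝ => s⁻¹) 1 :=
  ⟨measurable_inv, zero_le_one, fun s hs => by
    rw [abs_of_pos (by positivity)]
    exact inv_le_one_of_one_le₀ hs⟩

/-- If `h = a f` then `f` is in the domain of the generator and `T f = P h - 2 h`. -/
lemma gen_of (hpt : p ≠ ∞) {f h : LL p} (hf : f = M p (fun s => s⁻¹) h) :
    InGen (S p) f (P p h - (2:ℂ) • h) := by
  have h1 := Phi_tendsto hpt (fun t ht => quo_good ht) quo0_good quo_tendsto h
  have e : Phi p quo0 h = P p h - (2:ℂ) • h := by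
    have h2 := Phi_hasSum_apply (quo0_good) h
    have h3 : HasSum (fun n => M p (quo0 n) ((P p ^ n) h)) (∑ n ∈ Finset.range 2, M p (quo0 n) ((P p ^ n) h)) := by
      apply hasSum_sum_of_ne_finset_zero
      intro n hn
      simp only [Finset.mem_range, not_lt] at hn
      have : quo0 n = fun _ => 0 := by
        funext s
        unfold quo0
        rw [if_neg (by omega), if_neg (by omega)]
      rw [this, M_zero]
      rfl
    rw [h2.unique h3, Finset.sum_range_succ, Finset.sum_range_one]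
    have e0 : M p (quo0 0) ((P p ^ 0) h) = -((2:ℂ) • h) := by
      apply Lp.ext
      filter_upwards [M_coe (quo0_good 0) ((P p ^ 0) h), Lp.coeFn_neg ((2:ℂ) • h),
        Lp.coeFn_smul (2:ℂ) h] with x h1 h2 h3
      rw [h1, h2, Pi.neg_apply, h3, Pi.smul_apply]
      simp [quo0]
    have e1 : M p (quo0 1) ((P p ^ 1) h) = P p h := by
      have : quo0 1 = fun _ => 1 := by funext s; simp [quo0]
      rw [this, M_one, pow_one]
      rfl
    rw [e0, e1]
    abel
  rw [e] at h1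
  unfold InGen
  refine h1.congr' ?_
  filter_upwards [self_mem_nhdsWithin] with t ht
  have ht : 0 < t := ht
  -- identify the difference quotient
  have hA := Phi_hasSum_apply (quo_good ht) h
  have hB := Phi_M (heat_good ht.le) good_inv h
  rw [← hf] at hB
  have hC : HasSum (fun n => if n = 0 then f else 0) f := hasSum_ite_eq 0 f
  have hD := (hB.sub hC).const_smul ((t⁻¹ : ℝ) : ℂ)
  refine hA.unique ?_
  have hS : S p t f = Phi p (heat t) f := rfl
  rw [hS]
  have hfun : (fun n => M p (quo t n) ((P p ^ n) h)) = fun i => ((t⁻¹ : ℝ) : ℂ) •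
      (M p (fun s => heat t i s * s⁻¹) ((P p ^ i) h) - if i = 0 then f else 0) := by
    funext n
    apply Lp.ext
    rcases eq_or_ne n 0 with hn | hn
    · subst hn
      simp only [if_true, pow_zero]
      filter_upwards [M_coe (quo_good ht 0) ((1 : LL p →L[ℂ] LL p) h),
        M_coe ((heat_good ht.le 0).mul good_inv) ((1 : LL p →L[ℂ] LL p) h),
        M_coe good_inv h,
        Lp.coeFn_smul ((t⁻¹ : ℝ) : ℂ) (M p (fun s => heat t 0 s * s⁻¹) ((1 : LL p →L[ℂ] LL p) h) - f),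
        Lp.coeFn_sub (M p (fun s => heat t 0 s * s⁻¹) ((1 : LL p →L[ℂ] LL p) h)) f]
        with x h1 h2 h3 h4 h5
      have ha := aFun_one_le x
      have ha0 : aFun x ≠ 0 := by positivity
      have hid : ((1 : LL p →L[ℂ] LL p) h) = h := rfl
      rw [h1, h4, Pi.smul_apply, h5, Pi.sub_apply, h2, hf, h3, hid]
      simp only [smul_eq_mul, quo, heat, if_true, pow_zero, Nat.factorial_zero]
      push_cast
      have hac : (aFun x : ℂ) ≠ 0 := by exact_mod_cast ha0
      have htc : (t : ℂ) ≠ 0 := by exact_mod_cast ht.ne'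
      field_simp
      try ring
    · simp only [if_neg hn, sub_zero]
      filter_upwards [M_coe (quo_good ht n) ((P p ^ n) h),
        M_coe ((heat_good ht.le n).mul good_inv) ((P p ^ n) h),
        Lp.coeFn_smul ((t⁻¹ : ℝ) : ℂ) (M p (fun s => heat t n s * s⁻¹) ((P p ^ n) h))]
        with x h1 h2 h3
      have ha := aFun_one_le x
      have ha0 : aFun x ≠ 0 := by positivity
      rw [h1, h3, Pi.smul_apply, h2]
      simp only [smul_eq_mul, quo, heat, if_neg hn]
      obtain ⟨m, rfl⟩ := Nat.exists_eq_succ_of_ne_zero hn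
      simp only [Nat.succ_eq_add_one, Nat.add_sub_cancel]
      push_cast
      have hac : (aFun x : ℂ) ≠ 0 := by exact_mod_cast ha0
      have htc : (t : ℂ) ≠ 0 := by exact_mod_cast ht.ne'
      field_simp
      ring
  rw [hfun]
  exact hD


lemma inGen_unique {E : Type} [NormedAddCommGroup E] [NormedSpace ℂ E] {T : ℝ → E →L[ℂ] E}
    {f k k' : E} (h : InGen T f k) (h' : InGen T f k') : k = k' := tendsto_nhds_unique h h'

/-- cut-off multipliers -/
noncomputable def chi (N : ℕ) (s : ℝ) : ℝ := if s ≤ N then 1 else 0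

lemma chi_good (N : ℕ) : Good (chi N) 1 := by
  refine ⟨?_, zero_le_one, ?_⟩
  · unfold chi
    exact Measurable.ite measurableSet_Iic measurable_const measurable_const
  · intro s _
    unfold chi
    split_ifs <;> simp

lemma schi_good (N : ℕ) : Good (fun s => s * chi N s) N := by
  refine ⟨measurable_id.mul (chi_good N).meas, Nat.cast_nonneg N, ?_⟩
  intro s hs
  unfold chi
  split_ifs with h
  · rw [mul_one, abs_of_pos (by linarith)]; exact h
  · simp

lemma S_M_comm {U : ℝ → ℝ} {D : ℝ} (hU : Good U D) {t : ℝ} (ht : 0 ≤ t) (f : LL p) :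
    S p t (M p U f) = M p U (S p t f) := by
  have h1 := Phi_M (heat_good ht) hU f
  have h2 := (M p U).hasSum (Phi_hasSum_apply (heat_good ht) f)
  refine h1.unique ?_
  have hfun : (fun n => M p (fun s => heat t n s * U s) ((P p ^ n) f))
      = fun n => M p U (M p (heat t n) ((P p ^ n) f)) := by
    funext n
    rw [← mul_apply_eq_comp (M p U), M_mul hU (heat_good ht n)]
    congr 2
    funext s
    ring
  rw [hfun]
  exact h2

/-- The key estimate: on the domain of the generator in `L¹`, `a f` is integrable. -/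
lemma dom_bound {f k : LL 1} (h : InGen (S 1) f k) :
    ∫⁻ x, ENNReal.ofReal (aFun x) * ‖f x‖ₑ ≤ ‖k‖ₑ := by
  have hN : ∀ N : ℕ, ‖M 1 (fun s => s * chi N s) f‖ ≤ ‖k‖ := by
    intro N
    set hh : LL 1 := M 1 (fun s => s * chi N s) f with hhh
    have e1 : M 1 (chi N) f = M 1 (fun s => s⁻¹) hh := by
      rw [hhh, ← mul_apply_eq_comp, M_mul good_inv (schi_good N)]
      rw [M_congr (chi_good N) (good_inv.mul (schi_good N))]
      intro s hs
      have : s ≠ 0 := by positivity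
      field_simp
    have g1 := gen_of (p := 1) (by simp) e1
    have g2 : InGen (S 1) (M 1 (chi N) f) (M 1 (chi N) k) := by
      unfold InGen at *
      have h2 := ((M 1 (chi N)).continuous.tendsto k).comp h
      refine h2.congr' ?_
      filter_upwards [self_mem_nhdsWithin] with t ht
      simp only [Function.comp, map_smul, map_sub]
      rw [S_M_comm (chi_good N) (le_of_lt ht)]
    have e2 := inGen_unique g2 g1
    have e3 : ‖hh‖ ≤ ‖P 1 hh - (2:ℂ) • hh‖ := by
      have t1 : ‖(2:ℂ) • hh‖ ≤ ‖P 1 hh‖ + ‖P 1 hh - (2:ℂ) • hh‖ := by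
        have := norm_sub_le (P 1 hh) (P 1 hh - (2:ℂ) • hh)
        simpa using this
      have t2 : ‖(2:ℂ) • hh‖ = 2 * ‖hh‖ := by rw [norm_smul]; norm_num
      have t3 := P_norm_one hh
      linarith
    rw [← e2] at e3
    refine e3.trans ?_
    have := M_norm_apply (chi_good N) k
    simpa using this
  -- monotone convergence
  have h1 : ∀ N : ℕ, ∫⁻ x, ENNReal.ofReal (aFun x * chi N (aFun x)) * ‖f x‖ₑ ≤ ‖k‖ₑ := by
    intro N
    have h2 : ‖M 1 (fun s => s * chi N s) f‖ₑ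
        = ∫⁻ x, ENNReal.ofReal (aFun x * chi N (aFun x)) * ‖f x‖ₑ := by
      rw [Lp.enorm_def, eLpNorm_one_eq_lintegral_enorm]
      apply lintegral_congr_ae
      filter_upwards [M_coe (schi_good N) f] with x hx
      rw [hx, enorm_mul]
      congr 1
      rw [← ofReal_norm, Complex.norm_real, Real.norm_eq_abs, abs_of_nonneg]
      have := aFun_one_le x
      unfold chi
      split_ifs <;> simp <;> linarith
    rw [← h2, ← ofReal_norm, ← ofReal_norm]
    exact ENNReal.ofReal_le_ofReal (hN N)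
  have hm : Monotone fun (N : ℕ) x => ENNReal.ofReal (aFun x * chi N (aFun x)) * ‖f x‖ₑ := by
    intro N N' hNN x
    have ha := aFun_one_le x
    simp only
    gcongr
    unfold chi
    split_ifs with c1 c2 c2
    · exact le_rfl
    · exact absurd (c1.trans (by exact_mod_cast hNN)) c2
    · exact zero_le_one
    · exact le_rfl
  have h3 : ∫⁻ x, ENNReal.ofReal (aFun x) * ‖f x‖ₑ
      = ⨆ N : ℕ, ∫⁻ x, ENNReal.ofReal (aFun x * chi N (aFun x)) * ‖f x‖ₑ := by
    rw [← lintegral_iSup' _ (Eventually.of_forall fun x => fun N N' hNN => hm hNN x)]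
    · apply lintegral_congr
      intro x
      apply le_antisymm
      · obtain ⟨N, hN⟩ := exists_nat_ge (aFun x)
        refine le_trans (le_of_eq ?_) (le_iSup _ N)
        have : chi N (aFun x) = 1 := by unfold chi; rw [if_pos hN]
        rw [this, mul_one]
      · apply iSup_le
        intro N
        gcongr
        have := aFun_one_le x
        unfold chi
        split_ifs <;> linarith
    · intro N
      exact ((schi_good N).meas.comp aFun_meas).ennreal_ofReal.aemeasurable.mul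
        (Lp.aestronglyMeasurable f).enorm
  rw [h3]
  exact iSup_le h1


/-! ## The resolvent on `L¹` -/

/-- `w(s) = s/(l+2s)`. -/
noncomputable def ww (l s : ℝ) : ℝ := s / (l + 2 * s)

lemma ww_nonneg {l : ℝ} (hl : 0 < l) {s : ℝ} (hs : 1 ≤ s) : 0 ≤ ww l s := by
  unfold ww; positivity

lemma ww_le {l : ℝ} (hl : 0 < l) {s : ℝ} (hs : 1 ≤ s) : ww l s ≤ 1 / 2 := by
  unfold ww
  rw [div_le_div_iff₀ (by positivity) (by norm_num)]
  linarith

lemma ww_meas (l : ℝ) : Measurable (ww l) := by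
  unfold ww; fun_prop

/-- multipliers of `V (l - T)⁻¹` -/
noncomputable def kk (l : ℝ) (n : ℕ) (s : ℝ) : ℝ := ww l s ^ (n + 1)

lemma wpow_good {l : ℝ} (hl : 0 < l) (n : ℕ) : Good (fun s => ww l s ^ n) ((1 / 2) ^ n) :=
  ⟨(ww_meas l).pow_const n, by positivity, fun s hs => by
    rw [abs_of_nonneg (pow_nonneg (ww_nonneg hl hs) n)]
    exact pow_le_pow_left₀ (ww_nonneg hl hs) (ww_le hl hs) n⟩

lemma kk_good {l : ℝ} (hl : 0 < l) : GoodSeq (kk l) (1 / 2) := by
  intro n
  have := wpow_good hl (n + 1)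
  rw [pow_succ] at this
  rw [mul_comm]
  exact this

lemma wseq_good {l : ℝ} (hl : 0 < l) : GoodSeq (fun n s => ww l s ^ n) 1 := by
  intro n
  rw [one_mul]
  exact wpow_good hl n

/-- The operator `V (l - T)⁻¹` on `L¹`. -/
noncomputable def KK (l : ℝ) : LL 1 →L[ℂ] LL 1 := Phi 1 (kk l)

lemma resolvent {l : ℝ} (hl : 0 < l) (g : LL 1) :
    InGen (S 1) (M 1 (fun s => s⁻¹) (KK l g)) ((l : ℂ) • (M 1 (fun s => s⁻¹) (KK l g)) - g) := by
  have h1 := gen_of (p := 1) (by simp) (f := M 1 (fun s => s⁻¹) (KK l g)) (h := KK l g) rfl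
  have key : (l : ℂ) • (M 1 (fun s => s⁻¹) (KK l g)) + (2:ℂ) • KK l g = g + P 1 (KK l g) := by
    -- left side: multiplier (l + 2 s)/s
    have hgU : Good (fun s : ℝ => l * s⁻¹ + 2) (l + 2) := by
      refine ⟨by fun_prop, by positivity, fun s hs => ?_⟩
      rw [abs_of_nonneg (by positivity)]
      have : s⁻¹ ≤ 1 := inv_le_one_of_one_le₀ hs
      nlinarith
    have e1 : (l : ℂ) • (M 1 (fun s => s⁻¹) (KK l g)) + (2:ℂ) • KK l g
        = M 1 (fun s => l * s⁻¹ + 2) (KK l g) := by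
      apply Lp.ext
      filter_upwards [M_coe good_inv (KK l g), M_coe hgU (KK l g),
        Lp.coeFn_add ((l : ℂ) • (M 1 (fun s => s⁻¹) (KK l g))) ((2:ℂ) • KK l g),
        Lp.coeFn_smul (l : ℂ) (M 1 (fun s => s⁻¹) (KK l g)), Lp.coeFn_smul (2:ℂ) (KK l g)]
        with x h1 h2 h3 h4 h5
      rw [h3, Pi.add_apply, h4, h5, Pi.smul_apply, Pi.smul_apply, h1, h2]
      simp only [smul_eq_mul]
      push_cast
      ring
    have e2 : HasSum (fun n => M 1 (fun s => ww l s ^ n) ((P 1 ^ n) g))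
        (M 1 (fun s => l * s⁻¹ + 2) (KK l g)) := by
      have h2 := (M 1 (fun s => l * s⁻¹ + 2)).hasSum (Phi_hasSum_apply (kk_good hl) g)
      have hfun : (fun n => M 1 (fun s => ww l s ^ n) ((P 1 ^ n) g))
          = fun n => M 1 (fun s => l * s⁻¹ + 2) (M 1 (kk l n) ((P 1 ^ n) g)) := by
        funext n
        have e7 := M_mul (p := 1) hgU (kk_good hl n)
        have e8 : M 1 (fun s => l * s⁻¹ + 2) (M 1 (kk l n) ((P 1 ^ n) g))
            = (M 1 (fun s => l * s⁻¹ + 2) * M 1 (kk l n)) ((P 1 ^ n) g) := rfl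
        rw [e8, e7, M_congr (wpow_good hl n) (hgU.mul (kk_good hl n))]
        intro s hs
        unfold kk
        rw [pow_succ]
        have hs0 : s ≠ 0 := by positivity
        have : (l * s⁻¹ + 2) * ww l s = 1 := by
          unfold ww
          field_simp
        calc ww l s ^ n = ww l s ^ n * ((l * s⁻¹ + 2) * ww l s) := by rw [this, mul_one]
          _ = _ := by ring
      rw [hfun]
      exact h2
    have e3 : HasSum (fun n => M 1 (fun s => ww l s ^ (n + 1)) ((P 1 ^ (n + 1)) g))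
        (P 1 (KK l g)) := by
      have h2 := (P 1).hasSum (Phi_hasSum_apply (kk_good hl) g)
      have hfun : (fun n => M 1 (fun s => ww l s ^ (n + 1)) ((P 1 ^ (n + 1)) g))
          = fun n => P 1 (M 1 (kk l n) ((P 1 ^ n) g)) := by
        funext n
        rw [← mul_apply_eq_comp (P 1), P_M_comm (kk_good hl n), pow_succ']
        rfl
      rw [hfun]
      exact h2
    have e4 := (hasSum_nat_add_iff' 1).2 e2
    have e5 := e4.unique e3
    rw [e1, ← e5, Finset.sum_range_one]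
    have e6 : M 1 (fun s => ww l s ^ 0) ((P 1 ^ 0) g) = g := by
      have : (fun s => ww l s ^ 0) = fun _ => 1 := by funext s; simp
      rw [this, M_one]
      rfl
    rw [e6]
    abel
  have e : P 1 (KK l g) - (2:ℂ) • KK l g = (l : ℂ) • (M 1 (fun s => s⁻¹) (KK l g)) - g := by
    have := key
    rw [sub_eq_sub_iff_add_eq_add, add_comm, ← key, add_comm]
  rw [← e]
  exact h1

lemma KK_coe {l : ℝ} (g : LL 1) :
    ∀ᵐ x, KK l g x = (aFun x : ℂ) * (M 1 (fun s => s⁻¹) (KK l g)) x := by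
  filter_upwards [M_coe good_inv (KK l g)] with x hx
  rw [hx]
  have ha := aFun_one_le x
  have ha0 : (aFun x : ℂ) ≠ 0 := by
    have : aFun x ≠ 0 := by positivity
    exact_mod_cast this
  push_cast
  field_simp

lemma KK_norm {l : ℝ} (hl : 0 < l) : ‖KK l‖ ≤ 1 := by
  apply ContinuousLinearMap.opNorm_le_bound _ zero_le_one
  intro f
  apply Phi_norm_one (kk_good hl)
  intro N s hs
  have h0 := ww_nonneg hl hs
  have h1 := ww_le hl hs
  have h2 : ∀ n, |kk l n s| ≤ (1 / 2) * (1 / 2) ^ n := fun n => (kk_good hl n).bd s hs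
  calc ∑ n ∈ Finset.range N, |kk l n s| ≤ ∑ n ∈ Finset.range N, (1 / 2 : ℝ) * (1 / 2) ^ n :=
        Finset.sum_le_sum fun n _ => h2 n
    _ = (1 / 2) * ∑ n ∈ Finset.range N, (1 / 2 : ℝ) ^ n := by rw [Finset.mul_sum]
    _ ≤ (1 / 2) * 2 := by
        apply mul_le_mul_of_nonneg_left _ (by norm_num)
        exact sum_geometric_two_le N
    _ = 1 := by norm_num

/-- the integral as a functional -/
lemma integral_P (f : LL 1) : ∫ x, P 1 f x = ∫ x, f x := by
  have h1 : ∫ x, P 1 f x = ∫ x, ((2 / 3 : ℂ) * f (2 * x) + (1 / 3 : ℂ) * f (2⁻¹ * x)) :=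
    integral_congr_ae (P_coe f)
  have hi : Integrable (f : ℝ → ℂ) := L1.integrable_coeFn f
  have hi2 : Integrable (fun x => f (2 * x)) := hi.comp_mul_left' two_ne
  have hi3 : Integrable (fun x => f (2⁻¹ * x)) := hi.comp_mul_left' half_ne
  rw [h1, integral_add (hi2.const_mul _) (hi3.const_mul _), integral_const_mul,
    integral_const_mul, Measure.integral_comp_mul_left (f : ℝ → ℂ) 2,
    Measure.integral_comp_mul_left (f : ℝ → ℂ) 2⁻¹]
  have e3 : |(2:ℝ)⁻¹| = 2⁻¹ := abs_of_pos (by norm_num)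
  have e4 : |((2:ℝ)⁻¹)⁻¹| = 2 := by rw [inv_inv]; exact abs_of_pos (by norm_num)
  rw [e3, e4]
  simp only [Complex.real_smul]
  push_cast
  ring

/-- `A U f = ∫ U(a) f` -/
noncomputable def AA (U : ℝ → ℝ) (f : LL 1) : ℂ := ∫ x, M 1 U f x

lemma AA_P {U : ℝ → ℝ} {C : ℝ} (hU : Good U C) (f : LL 1) : AA U (P 1 f) = AA U f := by
  unfold AA
  have : M 1 U (P 1 f) = P 1 (M 1 U f) := by
    rw [← mul_apply_eq_comp, ← mul_apply_eq_comp, P_M_comm hU]
  rw [this, integral_P]

lemma AA_Ppow {U : ℝ → ℝ} {C : ℝ} (hU : Good U C) (n : ℕ) (f : LL 1) :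
    AA U ((P 1 ^ n) f) = AA U f := by
  induction n with
  | zero => rfl
  | succ n ih => rw [pow_succ', mul_apply_eq_comp, AA_P hU, ih]

lemma norm_integral_le (f : LL 1) : ‖∫ x, f x‖ ≤ ‖f‖ := by
  rw [L1.norm_eq_integral_norm]
  exact norm_integral_le_integral_norm _

/-- limit multiplier `v(s) = s/(l+s)` -/
noncomputable def vv (l s : ℝ) : ℝ := s / (l + s)

lemma vv_good {l : ℝ} (hl : 0 < l) : Good (vv l) 1 := by
  refine ⟨by unfold vv; fun_prop, zero_le_one, fun s hs => ?_⟩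
  unfold vv
  rw [abs_of_nonneg (by positivity), div_le_one (by positivity)]
  linarith

lemma AA_KK {l : ℝ} (hl : 0 < l) {U : ℝ → ℝ} {C : ℝ} (hU : Good U C) (f : LL 1) :
    AA U (KK l f) = AA (fun s => U s * vv l s) f := by
  -- partial sums
  have h1 : Tendsto (fun N => AA U (∑ n ∈ Finset.range N, M 1 (kk l n) ((P 1 ^ n) f))) atTop
      (𝓝 (AA U (KK l f))) := by
    rw [tendsto_iff_norm_sub_tendsto_zero]
    have h2 : Tendsto (fun N => C * ‖∑ n ∈ Finset.range N, M 1 (kk l n) ((P 1 ^ n) f) - KK l f‖)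
        atTop (𝓝 (C * 0)) :=
      (tendsto_iff_norm_sub_tendsto_zero.1 (Phi_partial (kk_good hl) f)).const_mul C
    rw [mul_zero] at h2
    refine squeeze_zero (fun N => norm_nonneg _) (fun N => ?_) h2
    unfold AA
    rw [← integral_sub (L1.integrable_coeFn _) (L1.integrable_coeFn _)]
    have e : ∫ x, (M 1 U (∑ n ∈ Finset.range N, M 1 (kk l n) ((P 1 ^ n) f)) x - M 1 U (KK l f) x)
        = ∫ x, M 1 U (∑ n ∈ Finset.range N, M 1 (kk l n) ((P 1 ^ n) f) - KK l f) x := by
      rw [map_sub]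
      apply integral_congr_ae
      filter_upwards [Lp.coeFn_sub (M 1 U (∑ n ∈ Finset.range N, M 1 (kk l n) ((P 1 ^ n) f)))
        (M 1 U (KK l f))] with x hx
      rw [hx]
      rfl
    rw [e]
    exact (norm_integral_le _).trans (M_norm_apply hU _)
  have hsum : ∀ N, AA U (∑ n ∈ Finset.range N, M 1 (kk l n) ((P 1 ^ n) f))
      + AA (fun s => U s * vv l s * ww l s ^ N) f = AA (fun s => U s * vv l s) f := by
    intro N
    induction N with
    | zero =>
      have e0 : AA U (∑ n ∈ Finset.range 0, M 1 (kk l n) ((P 1 ^ n) f)) = 0 := by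
        unfold AA
        rw [Finset.range_zero, Finset.sum_empty, map_zero]
        have : ∫ x, (0 : LL 1) x = ∫ x : ℝ, (0:ℂ) := by
          apply integral_congr_ae
          filter_upwards [Lp.coeFn_zero ℂ 1 (volume : Measure ℝ)] with x hx
          rw [hx]
          rfl
        rw [this, integral_zero]
      rw [e0, zero_add]
      congr 1
      funext s
      simp
    | succ N ih =>
      rw [← ih, Finset.sum_range_succ]
      have e1 : AA U (∑ n ∈ Finset.range N, M 1 (kk l n) ((P 1 ^ n) f) + M 1 (kk l N) ((P 1 ^ N) f))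
          = AA U (∑ n ∈ Finset.range N, M 1 (kk l n) ((P 1 ^ n) f))
            + AA U (M 1 (kk l N) ((P 1 ^ N) f)) := by
        unfold AA
        rw [map_add, ← integral_add (L1.integrable_coeFn _) (L1.integrable_coeFn _)]
        apply integral_congr_ae
        filter_upwards [Lp.coeFn_add (M 1 U (∑ n ∈ Finset.range N, M 1 (kk l n) ((P 1 ^ n) f)))
          (M 1 U (M 1 (kk l N) ((P 1 ^ N) f)))] with x hx
        rw [hx]
        rfl
      have e2 : AA U (M 1 (kk l N) ((P 1 ^ N) f)) = AA (fun s => U s * kk l N s) f := by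
        have e3 : AA U (M 1 (kk l N) ((P 1 ^ N) f)) = AA (fun s => U s * kk l N s) ((P 1 ^ N) f) := by
          unfold AA
          rw [← mul_apply_eq_comp, M_mul hU (kk_good hl N)]
        rw [e3, AA_Ppow (hU.mul (kk_good hl N))]
      have e4 : AA (fun s => U s * kk l N s) f + AA (fun s => U s * vv l s * ww l s ^ (N + 1)) f
          = AA (fun s => U s * vv l s * ww l s ^ N) f := by
        unfold AA
        rw [← integral_add (L1.integrable_coeFn _) (L1.integrable_coeFn _)]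
        apply integral_congr_ae
        filter_upwards [M_coe (hU.mul (kk_good hl N)) f,
          M_coe ((hU.mul (vv_good hl)).mul (wpow_good hl (N + 1))) f,
          M_coe ((hU.mul (vv_good hl)).mul (wpow_good hl N)) f] with x h1 h2 h3
        rw [h1, h2, h3, ← add_mul, ← Complex.ofReal_add]
        congr 2
        have ha := aFun_one_le x
        unfold kk
        have hv : vv l (aFun x) * (1 - ww l (aFun x)) = ww l (aFun x) := by
          unfold vv ww
          field_simp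
          ring
        have hv' : vv l (aFun x) = ww l (aFun x) + vv l (aFun x) * ww l (aFun x) := by linarith
        rw [pow_succ]
        nth_rewrite 2 [hv']
        ring
      rw [e1, e2, add_assoc, e4]
  have h3 : Tendsto (fun N => AA (fun s => U s * vv l s * ww l s ^ N) f) atTop (𝓝 0) := by
    rw [tendsto_zero_iff_norm_tendsto_zero]
    have h2 : Tendsto (fun N : ℕ => C * 1 * (1 / 2 : ℝ) ^ N * ‖f‖) atTop (𝓝 (C * 1 * 0 * ‖f‖)) :=
      ((_root_.tendsto_pow_atTop_nhds_zero_of_lt_one (r := (1 / 2 : ℝ)) (by norm_num) (by norm_num)).const_mul _).mul_const _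
    rw [mul_zero, zero_mul] at h2
    refine squeeze_zero (fun N => norm_nonneg _) (fun N => ?_) h2
    unfold AA
    exact (norm_integral_le _).trans
      (M_norm_apply ((hU.mul (vv_good hl)).mul (wpow_good hl N)) _)
  have h4 := h1.add h3
  simp only [hsum, add_zero] at h4
  exact tendsto_nhds_unique h4 tendsto_const_nhds

lemma AA_KKpow {l : ℝ} (hl : 0 < l) (k : ℕ) {U : ℝ → ℝ} {C : ℝ} (hU : Good U C) (f : LL 1) :
    AA U ((KK l ^ k) f) = AA (fun s => U s * vv l s ^ k) f := by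
  induction k generalizing U C with
  | zero =>
    simp only [pow_zero, mul_one]
    rfl
  | succ k ih =>
    rw [pow_succ', mul_apply_eq_comp, AA_KK hl hU, ih (hU.mul (vv_good hl))]
    congr 1
    funext s
    ring

lemma KKpow_norm {l : ℝ} (hl : 0 < l) (k : ℕ) : 1 ≤ ‖KK l ^ k‖ := by
  -- lower bound for each `e`
  have key : ∀ e : ℝ, 0 < e → e < 1 → (vv l e⁻¹) ^ k ≤ ‖KK l ^ k‖ := by
    intro e he he1
    set T : Set ℝ := Set.Ico ((2:ℝ) ^ (1 - e)) 2 with hT
    have hlt : (2:ℝ) ^ (1 - e) < 2 := by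
      calc (2:ℝ) ^ (1 - e) < (2:ℝ) ^ (1:ℝ) :=
            Real.rpow_lt_rpow_of_exponent_lt (by norm_num) (by linarith)
        _ = 2 := Real.rpow_one 2
    set m : ℝ := 2 - (2:ℝ) ^ (1 - e) with hm
    have hm0 : 0 < m := by simp only [hm]; linarith
    have hvol : (volume : Measure ℝ) T = ENNReal.ofReal m := by
      rw [hT, Real.volume_Ico]
    have hvr : (volume : Measure ℝ).real T = m := by
      rw [measureReal_def, hvol, ENNReal.toReal_ofReal hm0.le]
    have hmem : MemLp (T.indicator fun _ => (1:ℂ)) 1 volume :=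
      memLp_indicator_const 1 measurableSet_Ico 1 (Or.inr (by rw [hvol]; simp))
    set f : LL 1 := hmem.toLp _ with hf
    have hfn : ‖f‖ = m := by
      rw [L1.norm_eq_integral_norm]
      have : ∫ x, ‖f x‖ = ∫ x, T.indicator (fun _ => (1:ℝ)) x := by
        apply integral_congr_ae
        filter_upwards [hmem.coeFn_toLp] with x hx
        rw [hf, hx]
        by_cases h : x ∈ T <;> simp [h]
      rw [this, integral_indicator measurableSet_Ico, setIntegral_const, hvr, smul_eq_mul, mul_one]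
    have h1 : AA (fun _ => 1) ((KK l ^ k) f) = AA (fun s => 1 * vv l s ^ k) f :=
      AA_KKpow hl k good_one f
    have hvg : Good (fun s => 1 * vv l s ^ k) 1 := by
      refine ⟨by unfold vv; fun_prop, zero_le_one, fun s hs => ?_⟩
      rw [one_mul, abs_pow]
      exact pow_le_one₀ (abs_nonneg _) ((vv_good hl).bd s hs)
    have h2 : AA (fun s => 1 * vv l s ^ k) f
        = ((∫ x in T, vv l (aFun x) ^ k : ℝ) : ℂ) := by
      unfold AA
      have hTm : MeasurableSet T := measurableSet_Ico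
      rw [← integral_complex_ofReal, ← integral_indicator hTm]
      apply integral_congr_ae
      filter_upwards [M_coe hvg f, hmem.coeFn_toLp] with x e1 e2
      rw [e1, hf, e2]
      by_cases h : x ∈ T
      · rw [Set.indicator_of_mem h, Set.indicator_of_mem h]
        simp
      · rw [Set.indicator_of_notMem h, Set.indicator_of_notMem h]
        simp
    have h3 : vv l e⁻¹ ^ k * m ≤ ∫ x in T, vv l (aFun x) ^ k := by
      have : vv l e⁻¹ ^ k * m = ∫ x in T, vv l e⁻¹ ^ k := by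
        rw [setIntegral_const, hvr, smul_eq_mul, mul_comm]
      rw [this]
      apply setIntegral_mono_on
      · exact integrableOn_const (by rw [hvol]; simp)
      · apply Measure.integrableOn_of_bounded (M := 1) (by rw [hvol]; simp)
        · have : Measurable (fun x => vv l (aFun x) ^ k) :=
            ((by unfold vv; fun_prop : Measurable (vv l)).comp aFun_meas).pow_const k
          exact this.aestronglyMeasurable
        · refine Eventually.of_forall fun x => ?_
          rw [norm_pow]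
          exact pow_le_one₀ (norm_nonneg _) ((vv_good hl).bd _ (aFun_one_le x))
      · exact measurableSet_Ico
      · intro x hx
        have hb := aFun_big he he1 hx
        have he' : 0 < e⁻¹ := inv_pos.2 he
        have h0 : 0 ≤ vv l e⁻¹ := by unfold vv; positivity
        refine pow_le_pow_left₀ h0 ?_ k
        unfold vv
        rw [div_le_div_iff₀ (by positivity) (by linarith [aFun_one_le x])]
        nlinarith
    have h4 : ‖AA (fun _ => 1) ((KK l ^ k) f)‖ ≤ ‖KK l ^ k‖ * ‖f‖ := by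
      unfold AA
      refine (norm_integral_le _).trans ?_
      rw [M_one]
      exact (KK l ^ k).le_opNorm f
    rw [h1, h2, Complex.norm_real, hfn] at h4
    have h5 : vv l e⁻¹ ^ k * m ≤ ‖KK l ^ k‖ * m :=
      h3.trans ((le_abs_self _).trans h4)
    exact le_of_mul_le_mul_right h5 hm0
  -- let e → 0
  have hlim : Tendsto (fun e : ℝ => (vv l e⁻¹) ^ k) (𝓝[>] 0) (𝓝 1) := by
    have h1 : Tendsto (fun e : ℝ => (1 / (l * e + 1)) ^ k) (𝓝[>] 0) (𝓝 ((1 / (l * 0 + 1)) ^ k)) := by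
      have : ContinuousAt (fun e : ℝ => (1 / (l * e + 1)) ^ k) 0 := by
        apply ContinuousAt.pow
        apply ContinuousAt.div (by fun_prop) (by fun_prop) (by norm_num)
      exact this.tendsto.mono_left nhdsWithin_le_nhds
    have e0 : ((1:ℝ) / (l * 0 + 1)) ^ k = 1 := by simp
    rw [e0] at h1
    refine h1.congr' ?_
    filter_upwards [self_mem_nhdsWithin] with e he
    have he' : e ≠ 0 := ne_of_gt he
    congr 1
    unfold vv
    field_simp
  refine le_of_tendsto hlim ?_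
  filter_upwards [Ioo_mem_nhdsGT (zero_lt_one' ℝ)] with e he
  exact key e he.1 he.2

lemma spectral_KK {l : ℝ} (hl : 0 < l) : spectralRadius ℂ (KK l) = 1 := by
  have h1 := spectrum.pow_nnnorm_pow_one_div_tendsto_nhds_spectralRadius (KK l)
  refine tendsto_nhds_unique h1 ?_
  apply tendsto_const_nhds.congr'
  filter_upwards [eventually_gt_atTop 0] with n hn
  have h2 : ‖KK l ^ n‖ = 1 := by
    apply le_antisymm _ (KKpow_norm hl n)
    exact (norm_pow_le' _ hn).trans (pow_le_one₀ (norm_nonneg _) (KK_norm hl))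
  have h3 : ‖KK l ^ n‖₊ = 1 := by
    apply NNReal.eq
    rw [coe_nnnorm, h2]
    rfl
  rw [h3]
  simp


/-! ## The form on `L²` -/

/-- the closed form of the self-adjoint generator, `q(f) = sup_{t>0} t⁻¹ ⟪f - T t f, f⟫` -/
noncomputable def formQ {H : Type} [NormedAddCommGroup H] [InnerProductSpace ℂ H]
    (T : ℝ → H →L[ℂ] H) (f : H) : ℝ≥0∞ :=
  ⨆ t : ℝ, ⨆ _ : 0 < t, ENNReal.ofReal (t⁻¹ * (⟪f - T t f, f⟫_ℂ).re)

lemma norm_sq_two {G : ℝ → ℝ} {C : ℝ} (h : Good G C) (f : LL 2) :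
    ‖M 2 G f‖ ^ 2 = ∫ x, (G (aFun x)) ^ 2 * ‖f x‖ ^ 2 := by
  have h1 : ((‖M 2 G f‖ ^ 2 : ℝ) : ℂ) = ⟪M 2 G f, M 2 G f⟫_ℂ := by
    rw [inner_self_eq_norm_sq_to_K]; norm_cast
  have h2 : ⟪M 2 G f, M 2 G f⟫_ℂ = ((∫ x, (G (aFun x)) ^ 2 * ‖f x‖ ^ 2 : ℝ) : ℂ) := by
    rw [L2.inner_def, ← integral_complex_ofReal]
    apply integral_congr_ae
    filter_upwards [M_coe h f] with x hx
    have e1 : ‖(G (aFun x) : ℂ) * f x‖ ^ 2 = (G (aFun x)) ^ 2 * ‖f x‖ ^ 2 := by
      rw [norm_mul, mul_pow, Complex.norm_real, Real.norm_eq_abs, sq_abs]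
    rw [hx, inner_self_eq_norm_sq_to_K, ← e1]
    norm_cast
  have h3 : ((‖M 2 G f‖ ^ 2 : ℝ) : ℂ) = ((∫ x, (G (aFun x)) ^ 2 * ‖f x‖ ^ 2 : ℝ) : ℂ) := by
    rw [h1, h2]
  exact_mod_cast h3

lemma int_sq {G : ℝ → ℝ} {C : ℝ} (h : Good G C) (f : LL 2) :
    Integrable (fun x => G (aFun x) * ‖f x‖ ^ 2) := by
  have hf : Integrable (fun x => ‖f x‖ ^ 2) := (Lp.memLp f).integrable_norm_pow (by norm_num)
  refine hf.bdd_mul (h.meas.comp aFun_meas).aestronglyMeasurable (c := C) ?_
  exact Eventually.of_forall fun x => h.bd' x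

lemma term_form {g : ℝ → ℝ} {C : ℝ} (hg : Good g C) (hnn : ∀ s, 1 ≤ s → 0 ≤ g s) (n : ℕ)
    (f : LL 2) : (⟪M 2 g ((P 2 ^ n) f), f⟫_ℂ).re ≤ rho ^ n * ∫ x, g (aFun x) * ‖f x‖ ^ 2 := by
  have hr : Good (fun s => √(g s)) (√C) := by
    refine ⟨hg.meas.sqrt, Real.sqrt_nonneg _, fun s hs => ?_⟩
    rw [abs_of_nonneg (Real.sqrt_nonneg _)]
    exact Real.sqrt_le_sqrt ((le_abs_self _).trans (hg.bd s hs))
  have e1 : M 2 g = M 2 (fun s => √(g s)) * M 2 (fun s => √(g s)) := by
    rw [M_mul hr hr]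
    apply M_congr hg (hr.mul hr)
    intro s hs
    rw [Real.mul_self_sqrt (hnn s hs)]
  have e2 : M 2 (fun s => √(g s)) ((P 2 ^ n) f) = (P 2 ^ n) (M 2 (fun s => √(g s)) f) := by
    rw [← mul_apply_eq_comp, ← mul_apply_eq_comp, Ppow_M_comm hr]
  have e3 : ‖M 2 (fun s => √(g s)) f‖ ^ 2 = ∫ x, g (aFun x) * ‖f x‖ ^ 2 := by
    rw [norm_sq_two hr]
    apply integral_congr_ae
    refine Eventually.of_forall fun x => ?_
    simp only
    rw [Real.sq_sqrt (hnn _ (aFun_one_le x))]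
  rw [e1, mul_apply_eq_comp, M_symm hr, e2, ← e3]
  calc (⟪(P 2 ^ n) (M 2 (fun s => √(g s)) f), M 2 (fun s => √(g s)) f⟫_ℂ).re
      ≤ ‖⟪(P 2 ^ n) (M 2 (fun s => √(g s)) f), M 2 (fun s => √(g s)) f⟫_ℂ‖ := Complex.re_le_norm _
    _ ≤ ‖(P 2 ^ n) (M 2 (fun s => √(g s)) f)‖ * ‖M 2 (fun s => √(g s)) f‖ := norm_inner_le_norm _ _
    _ ≤ (rho ^ n * ‖M 2 (fun s => √(g s)) f‖) * ‖M 2 (fun s => √(g s)) f‖ := by
        apply mul_le_mul_of_nonneg_right _ (norm_nonneg _)
        exact Ppow_apply_norm rho_nonneg P_norm_two n _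
    _ = rho ^ n * ‖M 2 (fun s => √(g s)) f‖ ^ 2 := by ring

/-- multiplier of the comparison semigroup -/
noncomputable def ee (t s : ℝ) : ℝ := Real.exp (-((2 - rho) * (t * s)))

lemma ee_good {t : ℝ} (ht : 0 ≤ t) : Good (ee t) 1 := by
  refine ⟨by unfold ee; fun_prop, zero_le_one, fun s hs => ?_⟩
  unfold ee
  rw [abs_of_pos (Real.exp_pos _), Real.exp_le_one_iff]
  have h1 := rho_lt
  have h2 : 0 ≤ t * s := mul_nonneg ht (by linarith)
  nlinarith

lemma form_le {t : ℝ} (ht : 0 ≤ t) (f : LL 2) :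
    (⟪S 2 t f, f⟫_ℂ).re ≤ ∫ x, ee t (aFun x) * ‖f x‖ ^ 2 := by
  have h1 : Tendsto (fun N => (⟪∑ n ∈ Finset.range N, M 2 (heat t n) ((P 2 ^ n) f), f⟫_ℂ).re) atTop
      (𝓝 (⟪S 2 t f, f⟫_ℂ).re) := by
    have h2 := Phi_partial (heat_good ht) f
    have h3 : Tendsto (fun N => ⟪∑ n ∈ Finset.range N, M 2 (heat t n) ((P 2 ^ n) f), f⟫_ℂ) atTop
      (𝓝 ⟪S 2 t f, f⟫_ℂ) := h2.inner tendsto_const_nhds
    exact (Complex.continuous_re.tendsto _).comp h3
  refine le_of_tendsto h1 (Eventually.of_forall fun N => ?_)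
  rw [sum_inner, Complex.re_sum]
  calc ∑ n ∈ Finset.range N, (⟪M 2 (heat t n) ((P 2 ^ n) f), f⟫_ℂ).re
      ≤ ∑ n ∈ Finset.range N, rho ^ n * ∫ x, heat t n (aFun x) * ‖f x‖ ^ 2 :=
        Finset.sum_le_sum fun n _ => term_form (heat_good ht n) (heat_nonneg ht n) n f
    _ = ∫ x, ∑ n ∈ Finset.range N, rho ^ n * (heat t n (aFun x) * ‖f x‖ ^ 2) := by
        rw [integral_finsetSum]
        · exact Finset.sum_congr rfl fun n _ => (integral_const_mul _ _).symm
        · intro n _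
          exact (int_sq (heat_good ht n) f).const_mul _
    _ ≤ ∫ x, ee t (aFun x) * ‖f x‖ ^ 2 := by
        apply integral_mono
        · exact integrable_finsetSum _ fun n _ => (int_sq (heat_good ht n) f).const_mul _
        · exact int_sq (ee_good ht) f
        · intro x
          simp only
          have ha := aFun_one_le x
          have hts : 0 ≤ t * aFun x := mul_nonneg ht (by linarith)
          have e1 : ∑ n ∈ Finset.range N, rho ^ n * (heat t n (aFun x) * ‖f x‖ ^ 2)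
              = (Real.exp (-(2 * (t * aFun x)))
                * ∑ n ∈ Finset.range N, (rho * (t * aFun x)) ^ n / n.factorial) * ‖f x‖ ^ 2 := by
            rw [Finset.mul_sum, Finset.sum_mul]
            apply Finset.sum_congr rfl
            intro n _
            unfold heat
            rw [mul_pow rho]
            ring
          rw [e1]
          apply mul_le_mul_of_nonneg_right _ (by positivity)
          have h4 := Real.sum_le_exp_of_nonneg (mul_nonneg rho_nonneg hts) N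
          calc Real.exp (-(2 * (t * aFun x)))
                * ∑ n ∈ Finset.range N, (rho * (t * aFun x)) ^ n / n.factorial
              ≤ Real.exp (-(2 * (t * aFun x))) * Real.exp (rho * (t * aFun x)) :=
                mul_le_mul_of_nonneg_left h4 (Real.exp_pos _).le
            _ = ee t (aFun x) := by
                unfold ee
                rw [← Real.exp_add]
                congr 1
                ring

/-- the form controls the potential -/
lemma form_bound (f : LL 2) :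
    ENNReal.ofReal (2 - rho) * ∫⁻ x, ENNReal.ofReal (aFun x) * ‖f x‖ₑ ^ 2 ≤ formQ (S 2) f := by
  have hr := rho_lt
  -- each t
  have h1 : ∀ t : ℝ, 0 < t → ∫⁻ x, ENNReal.ofReal (t⁻¹ * (1 - ee t (aFun x)) * ‖f x‖ ^ 2)
      ≤ formQ (S 2) f := by
    intro t ht
    refine le_trans ?_ (le_iSup₂ (f := fun (t : ℝ) (_ : 0 < t) =>
      ENNReal.ofReal (t⁻¹ * (⟪f - S 2 t f, f⟫_ℂ).re)) t ht)
    have hint : Integrable (fun x => t⁻¹ * (1 - ee t (aFun x)) * ‖f x‖ ^ 2) := by
      have := (int_sq (good_one.sub (ee_good ht.le)) f).const_mul t⁻¹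
      refine this.congr (Eventually.of_forall fun x => ?_)
      simp only
      ring
    rw [← ofReal_integral_eq_lintegral_ofReal hint]
    · apply ENNReal.ofReal_le_ofReal
      have e1 : (⟪f - S 2 t f, f⟫_ℂ).re = ‖f‖ ^ 2 - (⟪S 2 t f, f⟫_ℂ).re := by
        rw [inner_sub_left, Complex.sub_re, inner_self_eq_norm_sq_to_K]
        norm_cast
      have e2 : ‖f‖ ^ 2 = ∫ x, 1 * ‖f x‖ ^ 2 := by
        have := norm_sq_two (good_one) f
        rw [M_one] at this
        simpa using this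
      have e3 : ∫ x, t⁻¹ * (1 - ee t (aFun x)) * ‖f x‖ ^ 2
          = t⁻¹ * (‖f‖ ^ 2 - ∫ x, ee t (aFun x) * ‖f x‖ ^ 2) := by
        rw [e2, ← integral_sub (int_sq good_one f) (int_sq (ee_good ht.le) f), ← integral_const_mul]
        congr 1
        funext x
        ring
      rw [e1, e3]
      apply mul_le_mul_of_nonneg_left _ (inv_nonneg.2 ht.le)
      linarith [form_le ht.le f]
    · refine Eventually.of_forall fun x => ?_
      have := (ee_good ht.le).bd' x
      have h2 := (abs_le.1 this).2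
      have : 0 ≤ 1 - ee t (aFun x) := by linarith
      simp only [Pi.zero_apply]
      positivity
  -- Fatou
  have h2 : ∫⁻ x, liminf (fun k : ℕ => ENNReal.ofReal
      (((1 / ((k:ℝ) + 1))⁻¹) * (1 - ee (1 / ((k:ℝ) + 1)) (aFun x)) * ‖f x‖ ^ 2)) atTop
      ≤ formQ (S 2) f := by
    refine (lintegral_liminf_le ?_).trans ?_
    · intro k
      have hm : Measurable (fun x => ee (1 / ((k:ℝ) + 1)) (aFun x)) :=
        (by unfold ee; fun_prop : Measurable (ee (1 / ((k:ℝ) + 1)))).comp aFun_meas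
      have hf : Measurable (fun x => ‖f x‖) := (Lp.stronglyMeasurable f).measurable.norm
      exact (((hm.const_sub 1).const_mul _).mul (hf.pow_const 2)).ennreal_ofReal
    · apply liminf_le_of_le (by isBoundedDefault)
      intro b hb
      obtain ⟨k, hk⟩ := hb.exists
      exact hk.trans (h1 _ (by positivity))
  refine le_trans (le_of_eq ?_) h2
  rw [← lintegral_const_mul' _ _ (by simp)]
  apply lintegral_congr
  intro x
  symm
  have ha := aFun_one_le x
  have h3 : Tendsto (fun k : ℕ => ENNReal.ofReal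
      (((1 / ((k:ℝ) + 1))⁻¹) * (1 - ee (1 / ((k:ℝ) + 1)) (aFun x)) * ‖f x‖ ^ 2)) atTop
      (𝓝 (ENNReal.ofReal ((2 - rho) * aFun x * ‖f x‖ ^ 2))) := by
    apply ENNReal.tendsto_ofReal
    apply Filter.Tendsto.mul_const
    have hd : HasDerivAt (fun t : ℝ => 1 - ee t (aFun x)) ((2 - rho) * aFun x) 0 := by
      have h4 : HasDerivAt (fun t : ℝ => -((2 - rho) * (t * aFun x))) (-((2 - rho) * aFun x)) 0 := by
        simpa using (((hasDerivAt_id' (0:ℝ)).mul_const (aFun x)).const_mul (2 - rho)).fun_neg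
      simpa [ee] using h4.exp.const_sub 1
    have hs := hd.tendsto_slope_zero_right
    have hk : Tendsto (fun k : ℕ => 1 / ((k:ℝ) + 1)) atTop (𝓝[>] 0) := by
      apply tendsto_nhdsWithin_of_tendsto_nhds_of_eventually_within
      · exact tendsto_one_div_add_atTop_nhds_zero_nat
      · exact Eventually.of_forall fun k => by
          show (0:ℝ) < 1 / ((k:ℝ) + 1)
          positivity
    have h5 := hs.comp hk
    refine h5.congr fun k => ?_
    simp [ee]
  rw [h3.liminf_eq, mul_assoc, ENNReal.ofReal_mul (by linarith), ENNReal.ofReal_mul (by linarith),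
    ENNReal.ofReal_pow (norm_nonneg _), ofReal_norm]


/-! ## The statement -/

/-- one-parameter semigroup of bounded operators -/
def Semig {E : Type} [NormedAddCommGroup E] [NormedSpace ℂ E] (T : ℝ → E →L[ℂ] E) : Prop :=
  T 0 = 1 ∧ ∀ s t, 0 ≤ s → 0 ≤ t → T (s + t) = T s * T t

/-- strong continuity at zero -/
def StrongCont {E : Type} [NormedAddCommGroup E] [NormedSpace ℂ E] (T : ℝ → E →L[ℂ] E) : Prop :=
  ∀ f, Tendsto (fun t => T t f) (𝓝[>] 0) (𝓝 f)

/-- contractivity -/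
def Contr {E : Type} [NormedAddCommGroup E] [NormedSpace ℂ E] (T : ℝ → E →L[ℂ] E) : Prop :=
  ∀ t, 0 ≤ t → ∀ f, ‖T t f‖ ≤ ‖f‖

/-- self-adjointness -/
def SelfAdj {H : Type} [NormedAddCommGroup H] [InnerProductSpace ℂ H] (T : ℝ → H →L[ℂ] H) : Prop :=
  ∀ t, 0 ≤ t → ∀ f g, ⟪T t f, g⟫_ℂ = ⟪f, T t g⟫_ℂ

/-- positivity: nonnegative functions are mapped to nonnegative functions -/
def PosPres {p : ℝ≥0∞} (T : ℝ → LL p → LL p) : Prop :=
  ∀ t, 0 ≤ t → ∀ f : LL p, (∀ᵐ x, NN (f x)) → ∀ᵐ x, NN (T t f x)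

/-- the operators on two Lebesgue spaces agree on common functions -/
def Consistent {p q : ℝ≥0∞} (T : ℝ → LL p → LL p) (T' : ℝ → LL q → LL q) : Prop :=
  ∀ t, 0 ≤ t → ∀ (f : LL p) (g : LL q), (∀ᵐ x, f x = g x) → ∀ᵐ x, T t f x = T' t g x

/-- a family of operators on all the spaces `L^p(ℝ)`, `1 ≤ p ≤ ∞` -/
abbrev Fam : Type := (p : ℝ≥0∞) → [Fact (1 ≤ p)] → ℝ → (LL p →L[ℂ] LL p)

/-- symmetric sub-Markovian semigroups on `ℝ` -/
structure IsSymSubMarkov (S : Fam) : Prop where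
  semig : ∀ (p : ℝ≥0∞) [Fact (1 ≤ p)], Semig (S p)
  cons : ∀ (p q : ℝ≥0∞) [Fact (1 ≤ p)] [Fact (1 ≤ q)],
    Consistent (fun t f => S p t f) (fun t f => S q t f)
  pos : ∀ (p : ℝ≥0∞) [Fact (1 ≤ p)], PosPres (fun t f => S p t f)
  one : Contr (S 1)
  top : Contr (S ∞)
  cont : ∀ (p : ℝ≥0∞) [Fact (1 ≤ p)], p ≠ ∞ → StrongCont (S p)
  symm : SelfAdj (S 2)

/-- the potential `V` is bounded relative to the `L¹` generator: `D(T) ⊆ D(V)` -/
def TBounded (T : ℝ → LL 1 →L[ℂ] LL 1) (V : ℝ → ℝ) : Prop :=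
  ∀ f k, InGen T f k → MemLp (fun x => (V x : ℂ) * f x) 1 volume

/-- `K = V (l - T)⁻¹` on `L¹` -/
def IsVRes (T : ℝ → LL 1 →L[ℂ] LL 1) (V : ℝ → ℝ) (l : ℝ) (K : LL 1 → LL 1) : Prop :=
  ∀ g, ∃ f, InGen T f ((l : ℂ) • f - g) ∧ ∀ᵐ x, K g x = (V x : ℂ) * f x

/-- `δ` is the limit of the spectral radii of `V (l - T)⁻¹` in `L¹` as `l → ∞` -/
def IsL1Limit (T : ℝ → LL 1 →L[ℂ] LL 1) (V : ℝ → ℝ) (δ : ℝ≥0∞) : Prop :=
  ∃ K : ℝ → LL 1 →L[ℂ] LL 1, (∀ l, 0 < l → IsVRes T V l (K l)) ∧
    Tendsto (fun l => spectralRadius ℂ (K l)) atTop (𝓝 δ)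

/-- the numbers `a` admitted in the definition of the form bound -/
def formBoundSet (T : ℝ → LL 2 →L[ℂ] LL 2) (V : ℝ → ℝ) : Set ℝ :=
  {a | 0 ≤ a ∧ ∃ b : ℝ, 0 ≤ b ∧ ∀ f : LL 2, formQ T f < ∞ →
    ∫⁻ x, ENNReal.ofReal (V x) * ‖f x‖ₑ ^ 2
      ≤ ENNReal.ofReal a * formQ T f + ENNReal.ofReal b * ‖f‖ₑ ^ 2}

/-- the `L²` form bound -/
noncomputable def formBound (T : ℝ → LL 2 →L[ℂ] LL 2) (V : ℝ → ℝ) : ℝ := sInf (formBoundSet T V)

/-- There are a symmetric sub-Markovian semigroup on `ℝ` and a nonnegative potential, bounded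
relative to the `L¹` generator, for which the `L²` form bound (an infimum over a nonempty set) is
strictly smaller than the limit of the `L¹` spectral radii, which is finite. -/
theorem result : ∃ (S : Fam) (V : ℝ → ℝ) (δ : ℝ≥0∞), IsSymSubMarkov S ∧ Measurable V ∧
    (∀ x, 0 ≤ V x) ∧ TBounded (S 1) V ∧ IsL1Limit (S 1) V δ ∧ δ < ∞ ∧
    (formBoundSet (S 2) V).Nonempty ∧ ENNReal.ofReal (formBound (S 2) V) < δ := by
  have hr := rho_lt
  have h1 : (2 - rho)⁻¹ ∈ formBoundSet (S 2) aFun := by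
    refine ⟨inv_nonneg.2 (by linarith), 0, le_rfl, fun f _ => ?_⟩
    have h2 := form_bound f
    rw [ENNReal.ofReal_zero, zero_mul, add_zero]
    have h3 : ENNReal.ofReal ((2 - rho)⁻¹) * ENNReal.ofReal (2 - rho) = 1 := by
      rw [← ENNReal.ofReal_mul (inv_nonneg.2 (by linarith)), inv_mul_cancel₀ (by linarith)]
      simp
    calc ∫⁻ x, ENNReal.ofReal (aFun x) * ‖f x‖ₑ ^ 2
        = ENNReal.ofReal ((2 - rho)⁻¹) * (ENNReal.ofReal (2 - rho)
            * ∫⁻ x, ENNReal.ofReal (aFun x) * ‖f x‖ₑ ^ 2) := by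
          rw [← mul_assoc, h3, one_mul]
      _ ≤ ENNReal.ofReal ((2 - rho)⁻¹) * formQ (S 2) f := by gcongr
  refine ⟨fun p _ => S p, aFun, 1, ?_, aFun_meas, fun x => by linarith [aFun_one_le x], ?_, ?_,
    ENNReal.one_lt_top, ⟨_, h1⟩, ?_⟩
  · exact
      { semig := fun p _ => ⟨S_zero, fun s t hs ht => S_add hs ht⟩
        cons := fun p q _ _ t ht f g hfg => Phi_compat (heat_good ht) f g hfg
        pos := fun p _ t ht f hf => S_pos ht f hf
        one := fun t ht f => S_contr_one ht f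
        top := fun t ht f => S_contr_top ht f
        cont := fun p _ hp f => S_cont hp f
        symm := fun t ht f g => S_symm ht f g }
  · intro f k h
    refine ⟨?_, ?_⟩
    · exact ((Complex.measurable_ofReal.comp aFun_meas).aestronglyMeasurable).mul
        (Lp.aestronglyMeasurable f)
    · rw [eLpNorm_one_eq_lintegral_enorm]
      have h1 := dom_bound h
      refine lt_of_le_of_lt (le_of_eq ?_) (lt_of_le_of_lt h1 (by simp))
      apply lintegral_congr
      intro x
      rw [enorm_mul]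
      congr 1
      rw [← ofReal_norm, Complex.norm_real, Real.norm_eq_abs,
        abs_of_nonneg (by linarith [aFun_one_le x])]
  · refine ⟨KK, fun l hl g => ⟨M 1 (fun s => s⁻¹) (KK l g), resolvent hl g, KK_coe g⟩, ?_⟩
    apply tendsto_const_nhds.congr'
    filter_upwards [eventually_gt_atTop 0] with l hl
    exact (spectral_KK hl).symm
  · have h2 : formBound (S 2) aFun ≤ (2 - rho)⁻¹ := csInf_le ⟨0, fun a ha => ha.1⟩ h1
    have h3 : (2 - rho)⁻¹ < 1 := inv_lt_one_of_one_lt₀ (by linarith)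
    show ENNReal.ofReal (formBound (S 2) aFun) < 1
    exact ENNReal.ofReal_lt_one.2 (by linarith)

end Pool.Agent.Results.MP_62a15f_an.Dilation
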